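import Mathlib

/-!
# Wreath products, groups with alternating composition factors, the class `Peelable`

`Wreath B n` is the wreath product `B ≀ S_n = (Fin n → B) ⋊ Perm (Fin n)`; its elements are pairs
`(f, σ)`, with `(f, σ) (g, τ) = (i ↦ f_i g_(σ⁻¹ i), σ τ)`.
-/

set_option autoImplicit false
set_option linter.unusedVariables false

open scoped commutatorElement

namespace Pool.Agent.H84.ML

/-- The wreath product `B ≀ S_n`. -/
abbrev Wreath (B : Type) [Group B] (n : ℕ) : Type := (Fin n → B) ⋊[mulAutArrow] Equiv.Perm (Fin n)

/-- The alternating wreath product `G ≀ A_n`: the elements of the wreath product `G ≀ S_n` over even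
permutations. -/
def AltWreath (G : Type) [Group G] (n : ℕ) : Subgroup (Wreath G n) :=
  (Equiv.Perm.sign.comp SemidirectProduct.rightHom).ker

open scoped Classical in
/-- Almost all multiples of `d` (in the sense of natural density) have the property `A`: the number
of the multiples `n < x` of `d` which do not have it is `o(x)`. -/
def AlmostAllMultiples (d : ℕ) (A : ℕ → Prop) : Prop :=
  ∀ ε : ℝ, 0 < ε → ∃ N : ℕ, ∀ x ≥ N,
    (((Finset.range x).filter fun n => d ∣ n ∧ ¬ A n).card : ℝ) ≤ ε * x

/-- `G` is a nontrivial finite group with trivial centre. -/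
structure Centreless (G : Type) [Group G] : Prop where
  finite : Finite G
  nontrivial : Nontrivial G
  center : Subgroup.center G = ⊥

/-- `A` is the Galois group of a finite Galois extension `F` of `K(t)` such that `K` is
algebraically closed in `F`. -/
def RegularOver (K : Type) [Field K] (A : Type) [Group A] : Prop :=
  ∃ (F : Type) (_ : Field F) (_ : Algebra (RatFunc K) F) (_ : Algebra K F)
    (_ : IsScalarTower K (RatFunc K) F) (_ : FiniteDimensional (RatFunc K) F)
    (_ : IsGalois (RatFunc K) F),
    Nonempty ((F ≃ₐ[RatFunc K] F) ≃* A) ∧
    ∀ y : F, IsAlgebraic K y → y ∈ Set.range (algebraMap K F)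

/-- All composition factors of the finite group `T` are alternating groups `A_d` with `d ≥ 5`,
`d ≠ 6`: `T` is trivial, or it has a normal subgroup `M` with this property such that `T / M` is
isomorphic to such a group `A_d`. -/
inductive AltComp : ∀ (T : Type) [Group T], Prop
  | one (T : Type) [Group T] (h : Subsingleton T) : AltComp T
  | ext (T : Type) [Group T] (M : Subgroup T) [M.Normal] (hM : AltComp M) (d : ℕ) (h5 : 5 ≤ d)
      (h6 : d ≠ 6) (e : T ⧸ M ≃* alternatingGroup (Fin d)) : AltComp T

/-- A class of groups `H`. It contains the commutative groups and contains `H` whenever it contains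
`H / [T, M]`, for characteristic subgroups `T ≤ M` of `H` such that `T` is commutative and the order
of `T` is prime to the index of `T` in `M`, or `H / A`, for a characteristic subgroup `A` of `H` all
of whose composition factors are alternating groups `A_d`, `d ≥ 5`, `d ≠ 6`. -/
inductive Peelable : ∀ (H : Type) [Group H], Prop
  | comm (H : Type) [Group H] (h : ∀ x y : H, x * y = y * x) : Peelable H
  | coprime (H : Type) [Group H] (T M : Subgroup H) [T.Characteristic] [M.Characteristic]
      (hTM : T ≤ M) (hab : ∀ x ∈ T, ∀ y ∈ T, x * y = y * x)
      (hco : (Nat.card T).Coprime (T.relIndex M)) (h : Peelable (H ⧸ ⁅T, M⁆)) : Peelable H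
  | altComp (H : Type) [Group H] (A : Subgroup H) [A.Characteristic] (hA : AltComp A)
      (h : Peelable (H ⧸ A)) : Peelable H

end Pool.Agent.H84.ML
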