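import Mathlib
import Pool.Agent.H84.ML.DefA
import Pool.Agent.H84.L.A7_T2H67_AG_Crit
import Pool.Agent.H84.L.A7_T2H67_AG_PKDef
import Pool.Agent.H84.L.S8_H391R2_T4_Nod
import Pool.Agent.H84.L.S8_H391R2_T4_Sem
import Pool.Agent.H84.L.S8_TH444_TW_Cls
import Pool.Agent.H84.L.S8_TH444_TW_ClsDef
import Pool.Agent.H84.L.S8_TH444_TW_RS
import Pool.Agent.H84.L.S8_TH444_TW_RSK
import Pool.Agent.H84.L.S8_W200_IG_Fam
import Pool.Agent.H84.L.S8_W200_IJ_SA
import Pool.Agent.H84.L.S8_Y60_DCF_Defs
import Pool.Agent.H84.L.S8_Y60_DC_Def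

/-!
# Groups with alternating composition factors, and the class `Peelable`
-/

set_option autoImplicit false
set_option linter.unusedSectionVars false
set_option linter.unusedVariables false

namespace Pool.Agent.H84.ML

open Pool.Agent.H391R2 Pool.Agent.H391R2.T4
open Pool.Agent.TH444.TW (RSK infinite_ratFunc finite_of_ker regSol_of_regularOver)

/-- from the rational numbers to a field of characteristic zero -/
theorem rsk_char0 (K : Type) [Field K] [CharZero K] {W W' : Type} [Group W] [Group W']
    {p : W' →* W} (h : RSK ℚ p) : RSK K p := by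
  intro E M _ _ _ _ _ _ _ ε
  have hc : CharZero E := charZero_of_injective_algebraMap (algebraMap K E).injective
  let _ : Algebra ℚ E := DivisionRing.toRatAlgebra
  exact h E M ε

theorem compIn_factor (K : Type) [Field K] [CharZero K] (T : Type) [Group T] (h : AltComp T) :
    Pool.Agent.Y60.DC.CompIn (Pool.Agent.T2H67.AG.Factor K) T := by
  induction h with
  | one T h => exact Pool.Agent.Y60.DC.CompIn.one T h
  | ext T M hM d h5 h6 e ih =>
    exact Pool.Agent.Y60.DC.CompIn.ext T M ih (Or.inl ⟨inferInstance, d, h5, h6, ⟨e⟩⟩)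

theorem peelable_of (K : Type) [Field K] [CharZero K] (H : Type) [Group H] (h : Peelable H) :
    Pool.Agent.T2H67.AG.Peelable K H := by
  induction h with
  | comm H h => exact Pool.Agent.T2H67.AG.Peelable.comm H h
  | coprime H T M hTM hab hco h ih =>
    exact Pool.Agent.T2H67.AG.Peelable.coprime H T M hTM hab hco ih
  | altComp H A hA h ih =>
    exact Pool.Agent.T2H67.AG.Peelable.factor H A (compIn_factor K A hA) ih

theorem altComp_of (T : Type) [Group T]
    (h : Pool.Agent.Y60.DC.CompIn (Pool.Agent.T2H67.AG.Factor ℚ) T) : AltComp T := by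
  induction h with
  | one T h => exact AltComp.one T h
  | ext T M hM hS ih =>
    rcases hS with ⟨-, d, h5, h6, ⟨e⟩⟩ | ⟨p, hp, hc, -⟩
    · exact AltComp.ext T M ih d h5 h6 e
    · exact absurd (CharP.eq ℚ hc (CharP.ofCharZero ℚ)) hp.out.ne_zero

theorem peelable_of_ag (H : Type) [Group H] (h : Pool.Agent.T2H67.AG.Peelable ℚ H) :
    Peelable H := by
  induction h with
  | comm H h => exact Peelable.comm H h
  | coprime H T M hTM hab hco h ih => exact Peelable.coprime H T M hTM hab hco ih
  | factor H A hA h ih => exact Peelable.altComp H A (altComp_of A hA) ih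

/-- solvable groups with abelian Sylow subgroups -/
theorem peelable_of_sylow (H : Type) [Group H] [Finite H] (h1 : Group.IsSolvable H)
    (h2 : ∀ (p : ℕ) [Fact p.Prime] (P : Sylow p H), ∀ x ∈ P, ∀ y ∈ P, x * y = y * x) :
    Peelable H := by
  refine peelable_of_ag H (Pool.Agent.T2H67.AG.peelable_of_sylow ℚ H fun ℓ hℓ _ P => ?_)
  have hf : Fact ℓ.Prime := ⟨hℓ⟩
  exact h2 ℓ P

end Pool.Agent.H84.ML
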