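import Mathlib
import Pool.Agent.H84.ML.DefA

/-!
# A class of kernels
-/

set_option autoImplicit false
set_option linter.unusedVariables false

namespace Pool.Agent.H84.ML

/-- The group of the inner automorphisms. -/
def InnerAut (G : Type) [Group G] : Subgroup (MulAut G) := (MulAut.conj : G →* MulAut G).range

/-- `D` is the greatest common divisor of the indices of the subgroups `U` of `Aut G` containing
`Inn G` in which `Inn G` has a complement. So `D = 1` if `Inn G` has a complement in `Aut G`, and `D`
divides the order of `Out G`. -/
def OuterIndex (G : Type) [Group G] (D : ℕ) : Prop :=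
  0 < D ∧ ∀ d : ℕ, d ∣ D ↔ ∀ U C : Subgroup (MulAut G), C ⊓ InnerAut G = ⊥ →
    C ⊔ InnerAut G = U → d ∣ U.index

/-- Two sets of natural numbers, depending on a group. -/
structure Kernels where
  /-- the `n` such that `G ≀ S_n` is a kernel -/
  sym : ∀ (G : Type) [Group G], Set ℕ
  /-- the `n` such that `G ≀ A_n` is a kernel -/
  alt : ∀ (G : Type) [Group G], Set ℕ

/-- The two sets are large. For nontrivial finite groups `G` with trivial centre, of outer index `E`,
`sym G` contains all large multiples of `E`, all `n ≥ ((3 |G| + 2)!)^3` if `Inn G` has a complement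
in `Aut G`, and all multiples of `|Out G|` which are at least `((3 |Aut G| + 2)!)^3`, and `alt G`
contains almost all multiples of `2 E` if `E` is odd. -/
structure Kernels.Large (D : Kernels) : Prop where
  sym : ∀ (G : Type) [Group G], Centreless G → ∀ E : ℕ, OuterIndex G E →
    ∃ n₀ : ℕ, ∀ n ≥ n₀, E ∣ n → n ∈ D.sym G
  symCompl : ∀ (G : Type) [Group G], Centreless G →
    (∃ C : Subgroup (MulAut G), IsCompl C (InnerAut G)) →
    ∀ n : ℕ, ((3 * Nat.card G + 2).factorial) ^ 3 ≤ n → n ∈ D.sym G
  symBound : ∀ (G : Type) [Group G], Centreless G →
    ∀ n : ℕ, ((3 * Nat.card (MulAut G) + 2).factorial) ^ 3 ≤ n → (InnerAut G).index ∣ n →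
      n ∈ D.sym G
  alt : ∀ (G : Type) [Group G], Centreless G → ∀ E : ℕ, OuterIndex G E → Odd E →
    AlmostAllMultiples (2 * E) (fun n => n ∈ D.alt G)

/-- The class of kernels: the smallest class of groups which
* contains `G ≀ S_n` for every nontrivial finite group `G` with trivial centre and `n ∈ sym G`,
* contains `G ≀ A_n` for every nontrivial finite group `G` with trivial centre and `n ∈ alt G`,
* contains the finite groups with trivial centre all of whose automorphisms are inner which are
  Galois groups of regular extensions of `ℚ(t)`,
* contains the finite groups all of whose composition factors are alternating groups `A_d`, `d ≥ 5`,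
  `d ≠ 6`,
* contains `T ≀ S_n` if it contains the nontrivial group `T` and `n ≥ 2 (|T| + 2)`,
* is closed under finite direct products, direct factors, isomorphisms and characteristic extensions
  (it contains `T` if it contains `C` and `T / C` for a characteristic subgroup `C` of `T`). -/
inductive KernelClass (D : Kernels) : ∀ (T : Type) [Group T], Prop
  | symmetric (G : Type) [Group G] (hG : Centreless G) (n : ℕ) (hn : n ∈ D.sym G) :
      KernelClass D (Wreath G n)
  | alternating (G : Type) [Group G] (hG : Centreless G) (n : ℕ) (hn : n ∈ D.alt G) :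
      KernelClass D (AltWreath G n)
  | complete (T : Type) [Group T] [Finite T] (hZ : Subgroup.center T = ⊥)
      (hI : ∀ a : MulAut T, ∃ g : T, a = MulAut.conj g) (hR : RegularOver ℚ T) : KernelClass D T
  | altComp (T : Type) [Group T] [Finite T] (h : AltComp T) : KernelClass D T
  | power (T : Type) [Group T] [Nontrivial T] (h : KernelClass D T) (n : ℕ)
      (hn : 2 * (Nat.card T + 2) ≤ n) : KernelClass D (Wreath T n)
  | prod (I : Type) [Finite I] (T : I → Type) [∀ i, Group (T i)] (h : ∀ i, KernelClass D (T i)) :
      KernelClass D (∀ i, T i)
  | factor (X T : Type) [Group X] [Group T] (h : KernelClass D (X × T)) : KernelClass D X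
  | extension (T : Type) [Group T] (C : Subgroup T) [C.Characteristic] (h : KernelClass D C)
      (h' : KernelClass D (T ⧸ C)) : KernelClass D T
  | iso (T T' : Type) [Group T] [Group T'] (e : T ≃* T') (h : KernelClass D T) :
      KernelClass D T'

end Pool.Agent.H84.ML
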