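import Mathlib
import Pool.Agent.H84.ML.DefA

/-!
# A class of epimorphisms of finite groups
-/

set_option autoImplicit false
set_option linter.unusedVariables false

namespace Pool.Agent.H84.ML

/-- `I` is the index of the homomorphism `α : B → Γ`: the greatest common divisor of the indices of
the subgroups `U` of `Γ` over which `α` splits. It divides the order of `Γ`. -/
def IsSplittingIndex {B Γ : Type} [Group B] [Group Γ] (α : B →* Γ) (I : ℕ) : Prop :=
  0 < I ∧ ∀ d : ℕ, d ∣ I ↔ ∀ (U : Subgroup Γ) (s : U →* B), (∀ u : U, α (s u) = u) → d ∣ U.index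

/-- Two sets of natural numbers, depending on a homomorphism. -/
structure Degrees where
  /-- the degrees of the symmetric fibre powers of `α` -/
  sym : ∀ (Γ B : Type) [Group Γ] [Group B], (B →* Γ) → Set ℕ
  /-- the degrees of the alternating fibre powers of `α` -/
  alt : ∀ (Γ B : Type) [Group Γ] [Group B], (B →* Γ) → Set ℕ

/-- The two sets are large. For surjective homomorphisms `α : B → Γ` of finite groups of index `I`,
`sym α` contains all large multiples of `I` and all multiples of `|Γ|` which are at least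
`((3 |B| + 2)!)^3`, and `alt α` contains almost all multiples of `2 I`. -/
structure Degrees.Large (D : Degrees) : Prop where
  sym : ∀ (Γ B : Type) [Group Γ] [Finite Γ] [Group B] [Finite B] (α : B →* Γ),
    Function.Surjective α → ∀ I : ℕ, IsSplittingIndex α I →
      ∃ n₀ : ℕ, ∀ n ≥ n₀, I ∣ n → n ∈ D.sym Γ B α
  symBound : ∀ (Γ B : Type) [Group Γ] [Finite Γ] [Group B] [Finite B] (α : B →* Γ),
    Function.Surjective α → ∀ n : ℕ, ((3 * Nat.card B + 2).factorial) ^ 3 ≤ n →
      Nat.card Γ ∣ n → n ∈ D.sym Γ B α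
  alt : ∀ (Γ B : Type) [Group Γ] [Finite Γ] [Group B] [Finite B] (α : B →* Γ),
    Function.Surjective α → ∀ I : ℕ, IsSplittingIndex α I →
      AlmostAllMultiples (2 * I) (fun n => n ∈ D.alt Γ B α)

/-- `p : X → Γ` is the symmetric fibre power of degree `n` of `α : B → Γ`: `X` is the group of all
`(y, ρ)`, `y` in `B ≀ S_n`, `ρ` in `Γ`, such that all coordinates of `y` are mapped to `ρ` by `α`, and
`p (y, ρ) = ρ`. Here `y` is the pair `(f x, σ x)`. The kernel is `(ker α) ≀ S_n`. -/
def IsSymPow {B Γ X : Type} [Group B] [Group Γ] [Group X] (α : B →* Γ) (n : ℕ) (p : X →* Γ) :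
    Prop :=
  ∃ (f : X → Fin n → B) (σ : X →* Equiv.Perm (Fin n)),
    (∀ x y i, f (x * y) i = f x i * f y ((σ x)⁻¹ i)) ∧
    (∀ x y, f x = f y → σ x = σ y → p x = p y → x = y) ∧ (∀ x i, α (f x i) = p x) ∧
    ∀ (g : Fin n → B) (τ : Equiv.Perm (Fin n)) (ρ : Γ), (∀ i, α (g i) = ρ) →
      ∃ x, f x = g ∧ σ x = τ ∧ p x = ρ

/-- `p : X → Γ` is the alternating fibre power of degree `n` of `α : B → Γ`, twisted by the character
`χ : Γ → {±1}`: `X` is the group of all `(y, ρ)` in the symmetric fibre power such that the sign of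
the permutation of `y` is `χ ρ`, and `p (y, ρ) = ρ`. The kernel is `(ker α) ≀ A_n`. -/
def IsAltPow {B Γ X : Type} [Group B] [Group Γ] [Group X] (α : B →* Γ) (χ : Γ →* ℤˣ) (n : ℕ)
    (p : X →* Γ) : Prop :=
  ∃ (f : X → Fin n → B) (σ : X →* Equiv.Perm (Fin n)),
    (∀ x y i, f (x * y) i = f x i * f y ((σ x)⁻¹ i)) ∧
    (∀ x y, f x = f y → σ x = σ y → p x = p y → x = y) ∧ (∀ x i, α (f x i) = p x) ∧
    (∀ x, Equiv.Perm.sign (σ x) = χ (p x)) ∧
    ∀ (g : Fin n → B) (τ : Equiv.Perm (Fin n)) (ρ : Γ), (∀ i, α (g i) = ρ) →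
      Equiv.Perm.sign τ = χ ρ → ∃ x, f x = g ∧ σ x = τ ∧ p x = ρ

/-- `N / Z(N)` is isomorphic to a finite direct product of alternating groups `A_d`, `5 ≤ d ≠ 6`;
if the degree `7` occurs, then `Z(N)` has no element of order `3`. -/
def CentAlt (N : Type) [Group N] : Prop :=
  ∃ (ι : Type) (_ : Finite ι) (d : ι → ℕ), (∀ i, 5 ≤ d i ∧ d i ≠ 6) ∧
    ((∃ i, d i = 7) → ∀ z ∈ Subgroup.center N, z ^ 3 = 1 → z = 1) ∧
    Nonempty (N ⧸ Subgroup.center N ≃* ((i : ι) → alternatingGroup (Fin (d i))))

/-- The subgroups `P` of `E` which are built up from `1` by steps `P ↦ N P`, where the subgroup `N`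
is normalized by `P` and by `H₀` and satisfies `CentAlt`. -/
inductive Built {E : Type} [Group E] (H₀ : Subgroup E) : Subgroup E → Prop
  | one : Built H₀ ⊥
  | step (P N : Subgroup E) : Built H₀ P → (∀ x ∈ P ⊔ H₀, ∀ y ∈ N, x * y * x⁻¹ ∈ N) →
      CentAlt N → Built H₀ (N ⊔ P)

/-- `p : X → Γ` is the projection of a semidirect product `N^k ⋊ Γ`, where `Γ` acts through a
homomorphism `γ ↦ (c γ, π γ)` to the wreath product `B ≀ S_k`, and `b` in `B` acts on `N` by `θ b`:
there are an isomorphism `ι` of `N^k` onto the kernel of `p` and a homomorphic section `s` of `p`,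
and `s γ` acts on the kernel by `x ↦ (θ (c_i) x_(π⁻¹ i))_i`. -/
def IsSemiPower {B N : Type} [Group B] [Group N] (θ : B → N → N) {Γ X : Type} [Group Γ] [Group X]
    (p : X →* Γ) : Prop :=
  ∃ (k : ℕ) (c : Γ → Fin k → B) (π : Γ →* Equiv.Perm (Fin k)) (ι : (Fin k → N) →* X)
    (s : Γ →* X), (∀ γ δ i, c (γ * δ) i = c γ i * c δ ((π γ)⁻¹ i)) ∧
    Function.Injective ι ∧ (∀ x, p x = 1 ↔ ∃ z, ι z = x) ∧ (∀ γ, p (s γ) = γ) ∧
    ∀ γ x, s γ * ι x = ι (fun i => θ (c γ i) (x ((π γ)⁻¹ i))) * s γ

/-- `N` is isomorphic by `e` to the norm-one subgroup of `G ≀ S_n`, the group of all `(f, σ)` with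
`∏ [f i] = 1` in the abelianization of `G`, and `θ` is the action of `Aut G` on this group. -/
def IsNormOne (G : Type) [Group G] (n : ℕ) {N : Type} [Group N] (e : N →* Wreath G n)
    (θ : MulAut G → N → N) : Prop :=
  Function.Injective e ∧ (∀ y, (∃ x, e x = y) ↔ ∏ i, Abelianization.of (y.left i) = 1) ∧
  ∀ a x, (e (θ a x)).left = (fun i => a ((e x).left i)) ∧ (e (θ a x)).right = (e x).right

/-- `p' : X' → Γ'` is a pull-back of `p : X → Γ` along a surjection `Γ' → Γ`: it is isomorphic to the
projection of the fibre product of `X` and `Γ'` over `Γ`. -/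
def IsPullback {Γ X Γ' X' : Type} [Group Γ] [Group X] [Group Γ'] [Group X'] (p : X →* Γ)
    (p' : X' →* Γ') : Prop :=
  ∃ (r : Γ' →* Γ) (r' : X' →* X), Function.Surjective r ∧ (∀ x, p (r' x) = r (p' x)) ∧
    (∀ x, r' x = 1 → p' x = 1 → x = 1) ∧ ∀ x γ, p x = r γ → ∃ z, r' z = x ∧ p' z = γ

/-- `p : X → Γ` is induced from `q : Y → Δ`, for a subgroup `Δ` of `Γ`: there is a homomorphism `r`
over `Δ` from the inverse image of `Δ` in `X` to `Y` such that the kernel of `p` is the induced group
of the kernel of `q`, that is, an element `n` of the kernel of `p` is trivial if `r` is trivial on all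
its conjugates `x⁻¹ n x`, and `|ker p| ≥ |ker q| ^ [Γ : Δ]`. -/
def IsInduced {Γ X Y : Type} [Group Γ] [Group X] [Group Y] (p : X →* Γ) (Δ : Subgroup Γ)
    (q : Y →* Δ) : Prop :=
  ∃ r : Δ.comap p →* Y, (∀ x, (q (r x) : Γ) = p x) ∧
    (∀ n, p n = 1 → (∀ (x : X) (y : Δ.comap p), (y : X) = x⁻¹ * n * x → r y = 1) → n = 1) ∧
    Nat.card q.ker ^ Δ.index ≤ Nat.card p.ker

/-- The class of epimorphisms `X → Γ`, depending on a field `K` and on `D`: the smallest class of
homomorphisms of groups which
* contains the epimorphisms with a homomorphic section `s` and a finite kernel `N`, for which `N` is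
  in the class `Peelable` (for example `N` abelian, or `N` solvable with abelian Sylow subgroups), or
  `N` is built up by subgroups which are normalized by the image of `s` and are central extensions of
  products of alternating groups (`Built`),
* contains the projections `N^k ⋊ Γ → Γ`, where `Γ` acts through a homomorphism `Γ → B ≀ S_k`, for
  the following groups `N` with action of `B`: `B = N` acting by conjugation, `N` the group of a
  regular Galois extension of `K(t)`; `B = Aut G` acting on `N = G ≀ S_n`, or on its norm-one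
  subgroup `N`, for any finite group `G` and `n ≥ ((3 |G| + 2)!)^3`,
* contains all epimorphisms (split or not) whose kernel is a product of wreath products `G ≀ S_n`
  (with varying `G` and `n`), where the nontrivial finite group `G` has trivial centre, `Inn G` has a
  complement in `Aut G` and `n ≥ ((3 |G| + 2)!)^3`,
* contains the projection to `Γ` of the symmetric fibre power of degree `n ∈ D.sym α` of any
  surjection `α : B → Γ`, and of the alternating fibre power of degree `n ∈ D.alt α`, twisted by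
  any `χ : Γ → {±1}` if the index of `α` is odd, and by `χ = 1` otherwise,
* is closed under composition, and under quotients (if `p ∘ q` is in the class and `q` is
  surjective, then `p` is in the class),
* is closed under pull-back along surjections `Γ' → Γ`, `Γ'` finite, and induction from
  subgroups. -/
inductive Tower (K : Type) [Field K] (D : Degrees) :
    ∀ {Γ X : Type} [Group Γ] [Group X], (X →* Γ) → Prop
  | peelable {Γ X : Type} [Group Γ] [Group X] (p : X →* Γ) (s : Γ →* X) (hs : ∀ γ, p (s γ) = γ)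
      (hfin : Finite p.ker) (h : Peelable p.ker) : Tower K D p
  | central {Γ X : Type} [Group Γ] [Group X] (p : X →* Γ) (s : Γ →* X) (hs : ∀ γ, p (s γ) = γ)
      (hfin : Finite p.ker) (h : Built s.range p.ker) : Tower K D p
  | inner {Γ X : Type} [Group Γ] [Group X] (p : X →* Γ) (A : Type) [Group A] [Finite A]
      (hA : RegularOver K A) (hp : IsSemiPower (fun a x : A => a * x * a⁻¹) p) : Tower K D p
  | wreath {Γ X : Type} [Group Γ] [Group X] (p : X →* Γ) (G : Type) [Group G] [Finite G] (n : ℕ)
      (hn : ((3 * Nat.card G + 2).factorial) ^ 3 ≤ n)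
      (hp : IsSemiPower (fun (a : MulAut G) (x : Wreath G n) =>
        (⟨fun i => a (x.left i), x.right⟩ : Wreath G n)) p) : Tower K D p
  | normOne {Γ X : Type} [Group Γ] [Group X] (p : X →* Γ) (G : Type) [Group G] [Finite G] (n : ℕ)
      (hn : ((3 * Nat.card G + 2).factorial) ^ 3 ≤ n) (N : Type) [Group N] (e : N →* Wreath G n)
      (θ : MulAut G → N → N) (hθ : IsNormOne G n e θ) (hp : IsSemiPower θ p) : Tower K D p
  | kernel {Γ X : Type} [Group Γ] [Group X] (p : X →* Γ) (hp : Function.Surjective p)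
      (I : Type) [Finite I] (G : I → Type) [∀ i, Group (G i)] [∀ i, Finite (G i)]
      [∀ i, Nontrivial (G i)] (hZ : ∀ i, Subgroup.center (G i) = ⊥)
      (hC : ∀ i, ∃ C : Subgroup (MulAut (G i)), IsCompl C (MulAut.conj : G i →* MulAut (G i)).range)
      (n : I → ℕ) (hn : ∀ i, ((3 * Nat.card (G i) + 2).factorial) ^ 3 ≤ n i)
      (hN : Nonempty (p.ker ≃* (∀ i, Wreath (G i) (n i)))) : Tower K D p
  | symmetric {Γ B X : Type} [Group Γ] [Group B] [Finite B] [Group X] (α : B →* Γ)
      (hα : Function.Surjective α) (n : ℕ) (hn : n ∈ D.sym Γ B α) (p : X →* Γ)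
      (hp : IsSymPow α n p) : Tower K D p
  | alternating {Γ B X : Type} [Group Γ] [Group B] [Finite B] [Group X] (α : B →* Γ)
      (hα : Function.Surjective α) (χ : Γ →* ℤˣ) (n : ℕ) (hn : n ∈ D.alt Γ B α)
      (hχ : (∃ I : ℕ, Odd I ∧ IsSplittingIndex α I) ∨ χ = 1) (p : X →* Γ)
      (hp : IsAltPow α χ n p) : Tower K D p
  | comp {Γ X Y : Type} [Group Γ] [Group X] [Group Y] (p : X →* Γ) (q : Y →* X)
      (hp : Tower K D p) (hq : Tower K D q) : Tower K D (p.comp q)
  | quot {Γ X Y : Type} [Group Γ] [Group X] [Group Y] (p : X →* Γ) (q : Y →* X)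
      (hq : Function.Surjective q) (hpq : Tower K D (p.comp q)) : Tower K D p
  | pullback {Γ X Γ' X' : Type} [Group Γ] [Group X] [Group Γ'] [Finite Γ'] [Group X']
      (p : X →* Γ) (p' : X' →* Γ') (hp : IsPullback p p') (h : Tower K D p) : Tower K D p'
  | induced {Γ X Y : Type} [Group Γ] [Group X] [Finite X] [Group Y] (p : X →* Γ)
      (hp : Function.Surjective p) (Δ : Subgroup Γ) (q : Y →* Δ) (hq : IsInduced p Δ q)
      (h : Tower K D q) : Tower K D p

end Pool.Agent.H84.ML
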