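import Mathlib
import Pool.Agent.H84.ML.DefU

/-!
# A class of epimorphisms of finite groups
-/

set_option autoImplicit false
set_option linter.unusedVariables false

namespace Pool.Agent.H84.ML

/-! ### Fibre powers -/

/-- The symmetric fibre power of `α : B → Γ`: the group of all `(x, ρ)` with `x` in `B ≀ S_n`, `ρ` in
`Γ`, such that all coordinates of `x` are mapped to `ρ` by `α`. -/
def SymPow {B Γ : Type} [Group B] [Group Γ] (α : B →* Γ) (n : ℕ) : Subgroup (Wreath B n × Γ) where
  carrier := {z | ∀ i, α (z.1.left i) = z.2}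
  one_mem' := fun _ => map_one α
  mul_mem' := by
    intro a b ha hb i
    change α (a.1.left i * b.1.left (a.1.right⁻¹ i)) = a.2 * b.2
    rw [map_mul, ha, hb]
  inv_mem' := by
    intro a ha i
    have h1 : (a⁻¹).1.left i = (a.1.left (a.1.right i))⁻¹ := by
      change ((a.1)⁻¹).left i = _
      rw [SemidirectProduct.inv_left]
      change (a.1.left⁻¹) ((a.1.right⁻¹)⁻¹ • i) = _
      rw [inv_inv]
      rfl
    rw [h1, map_inv, ha]
    rfl

/-- The projection `(x, ρ) ↦ ρ`. Its kernel is `(ker α) ≀ S_n`. -/
def symPr {B Γ : Type} [Group B] [Group Γ] (α : B →* Γ) (n : ℕ) : SymPow α n →* Γ :=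
  (MonoidHom.snd (Wreath B n) Γ).comp (SymPow α n).subtype

/-- The alternating fibre power of `α : B → Γ` twisted by `χ : Γ → {±1}`: the group of all `(x, ρ)`
in the symmetric fibre power such that the sign of the permutation of `x` is `χ ρ`. -/
def AltPow {B Γ : Type} [Group B] [Group Γ] (α : B →* Γ) (χ : Γ →* ℤˣ) (n : ℕ) :
    Subgroup (Wreath B n × Γ) where
  carrier := {z | z ∈ SymPow α n ∧ Equiv.Perm.sign z.1.right = χ z.2}
  one_mem' := ⟨one_mem _, by
    rw [Prod.snd_one, map_one]
    exact map_one _⟩
  mul_mem' := by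
    intro a b ha hb
    refine ⟨mul_mem ha.1 hb.1, ?_⟩
    change Equiv.Perm.sign (a.1.right * b.1.right) = χ (a.2 * b.2)
    rw [map_mul, map_mul, ha.2, hb.2]
  inv_mem' := by
    intro a ha
    refine ⟨inv_mem ha.1, ?_⟩
    change Equiv.Perm.sign (a.1.right⁻¹) = χ (a.2⁻¹)
    rw [map_inv, map_inv, ha.2]

/-- The projection `(x, ρ) ↦ ρ`. Its kernel is `(ker α) ≀ A_n`. -/
def altPr {B Γ : Type} [Group B] [Group Γ] (α : B →* Γ) (χ : Γ →* ℤˣ) (n : ℕ) :
    AltPow α χ n →* Γ :=
  (MonoidHom.snd (Wreath B n) Γ).comp (AltPow α χ n).subtype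

/-! ### Powers -/

/-- `p : X → Γ` is the projection of a semidirect product `N^k ⋊ Γ`, where `Γ` acts through a
homomorphism `ψ : Γ → B ≀ S_k`, and `B` acts on `N` by `θ`: there are an isomorphism `ι` of `N^k` onto
the kernel of `p` and a homomorphic section `s` of `p`, and `s γ` acts on the kernel by
`x ↦ (θ(c_i) x_(π⁻¹ i))_i`, where `ψ γ = (c, π)`. -/
def IsPower {B N : Type} [Group B] [Group N] (θ : B →* MulAut N) {Γ X : Type} [Group Γ] [Group X]
    (p : X →* Γ) : Prop :=
  ∃ (k : ℕ) (ψ : Γ →* Wreath B k) (ι : (Fin k → N) →* X) (s : Γ →* X),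
    Function.Injective ι ∧ ι.range = p.ker ∧ (∀ γ, p (s γ) = γ) ∧
    ∀ γ x, s γ * ι x = ι (fun i => θ ((ψ γ).left i) (x ((ψ γ).right⁻¹ i))) * s γ

/-- The action of `Aut G` on `G ≀ S_n`: an automorphism is applied to the `n` coordinates. -/
def wreathAct (G : Type) [Group G] (n : ℕ) : MulAut G →* MulAut (Wreath G n) where
  toFun c :=
    { toFun := fun x => ⟨fun i => c (x.left i), x.right⟩
      invFun := fun x => ⟨fun i => c⁻¹ (x.left i), x.right⟩
      left_inv := fun x => SemidirectProduct.ext (funext fun i => MulAut.inv_apply_self G c _) rfl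
      right_inv := fun x => SemidirectProduct.ext (funext fun i => MulAut.apply_inv_self G c _) rfl
      map_mul' := fun a b => SemidirectProduct.ext (funext fun i => map_mul c _ _) rfl }
  map_one' := rfl
  map_mul' _ _ := rfl

/-- The product of the classes of the coordinates in the abelianization, as a homomorphism. -/
def normHom (G : Type) [Group G] (n : ℕ) : Wreath G n →* Abelianization G where
  toFun x := ∏ i, Abelianization.of (x.left i)
  map_one' := Finset.prod_eq_one fun i _ => by
    rw [SemidirectProduct.one_left, Pi.one_apply, map_one]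
  map_mul' a b := by
    have h1 : ∀ i, (a * b).left i = a.left i * b.left (a.right⁻¹ i) := fun i => rfl
    simp only [h1, map_mul, Finset.prod_mul_distrib]
    congr 1
    exact Equiv.prod_comp a.right⁻¹ (fun i => Abelianization.of (b.left i))

/-- The norm-one subgroup of `G ≀ S_n`: all `(f, σ)` with `∏ [f i] = 1` in the abelianization
of `G`. -/
def NormOne (G : Type) [Group G] (n : ℕ) : Subgroup (Wreath G n) := (normHom G n).ker

theorem wreathAct_mem {G : Type} [Group G] {n : ℕ} (c : MulAut G) (x : NormOne G n) :
    wreathAct G n c x.1 ∈ NormOne G n := by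
  have h1 : ∏ i, Abelianization.of (x.1.left i) = 1 := x.2
  have h2 := congrArg (Abelianization.map (c : G →* G)) h1
  rw [map_prod, map_one] at h2
  change ∏ i, Abelianization.of (c (x.1.left i)) = 1
  refine Eq.trans (Finset.prod_congr rfl fun i _ => ?_) h2
  rw [Abelianization.map_of]
  rfl

/-- The action of `Aut G` on the norm-one subgroup of `G ≀ S_n`. -/
def normOneAct (G : Type) [Group G] (n : ℕ) : MulAut G →* MulAut (NormOne G n) where
  toFun c :=
    { toFun := fun x => ⟨wreathAct G n c x.1, wreathAct_mem c x⟩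
      invFun := fun x => ⟨wreathAct G n c⁻¹ x.1, wreathAct_mem c⁻¹ x⟩
      left_inv := fun x => Subtype.ext
        (SemidirectProduct.ext (funext fun i => MulAut.inv_apply_self G c _) rfl)
      right_inv := fun x => Subtype.ext
        (SemidirectProduct.ext (funext fun i => MulAut.apply_inv_self G c _) rfl)
      map_mul' := fun a b => Subtype.ext (map_mul (wreathAct G n c) a.1 b.1) }
  map_one' := rfl
  map_mul' _ _ := rfl

/-! ### Pull-back and induction -/

/-- The class of epimorphisms `X → Γ`, depending on a field `K` and on `D`: the smallest class of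
homomorphisms of groups which
* contains the epimorphisms with a homomorphic section `s` and a finite kernel `N`, for which `N` is
  in the class `Peelable` (for example `N` abelian, or `N` solvable with abelian Sylow subgroups), or
  `N` is built up by subgroups which are normalized by the image of `s` and are central extensions of
  products of alternating groups (`Built`),
* contains the projections `N^k ⋊ Γ → Γ`, where `Γ` acts through a homomorphism `Γ → B ≀ S_k`, for
  the following groups `N` with action of `B`: `B = N` acting by conjugation, `N` the group of a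
  regular Galois extension of `K(t)`; `B = Aut G` acting on `N = G ≀ S_n`, or on its norm-one
  subgroup `N`, for any finite group `G` and `n ≥ ((3 |G| + 2)!)^3`,
* contains all epimorphisms (split or not) whose kernel is a product of wreath products `G ≀ S_n`
  (with varying `G` and `n`), where the nontrivial finite group `G` has trivial centre, `Inn G` has a
  complement in `Aut G` and `n ≥ ((3 |G| + 2)!)^3`,
* contains the projection to `Γ` of the symmetric fibre power of degree `n ∈ D.sym α` of any
  surjection `α : B → Γ`, and of the alternating fibre power of degree `n ∈ D.alt α`, twisted by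
  any `χ : Γ → {±1}` if the index of `α` is odd, and by `χ = 1` otherwise,
* is closed under composition, and under quotients (if `p ∘ q` is in the class and `q` is
  surjective, then `p` is in the class),
* is closed under pull-back along surjections `Γ' → Γ`, `Γ'` finite, and induction from
  subgroups. -/
inductive Step (K : Type) [Field K] (D : Degrees) :
    ∀ {Γ X : Type} [Group Γ] [Group X], (X →* Γ) → Prop
  | peelable {Γ X : Type} [Group Γ] [Group X] (p : X →* Γ) (s : Γ →* X) (hs : ∀ γ, p (s γ) = γ)
      (hfin : Finite p.ker) (h : Peelable p.ker) : Step K D p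
  | central {Γ X : Type} [Group Γ] [Group X] (p : X →* Γ) (s : Γ →* X) (hs : ∀ γ, p (s γ) = γ)
      (hfin : Finite p.ker) (h : Built s.range p.ker) : Step K D p
  | inner {Γ X : Type} [Group Γ] [Group X] (p : X →* Γ) (A : Type) [Group A] [Finite A]
      (hA : RegularOver K A) (hp : IsPower (MulAut.conj : A →* MulAut A) p) : Step K D p
  | wreath {Γ X : Type} [Group Γ] [Group X] (p : X →* Γ) (G : Type) [Group G] [Finite G] (n : ℕ)
      (hn : ((3 * Nat.card G + 2).factorial) ^ 3 ≤ n) (hp : IsPower (wreathAct G n) p) : Step K D p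
  | normOne {Γ X : Type} [Group Γ] [Group X] (p : X →* Γ) (G : Type) [Group G] [Finite G] (n : ℕ)
      (hn : ((3 * Nat.card G + 2).factorial) ^ 3 ≤ n) (hp : IsPower (normOneAct G n) p) :
      Step K D p
  | kernel {Γ X : Type} [Group Γ] [Group X] (p : X →* Γ) (hp : Function.Surjective p)
      (I : Type) [Finite I] (G : I → Type) [∀ i, Group (G i)] [∀ i, Finite (G i)]
      [∀ i, Nontrivial (G i)] (hZ : ∀ i, Subgroup.center (G i) = ⊥)
      (hC : ∀ i, ∃ C : Subgroup (MulAut (G i)), IsCompl C (MulAut.conj : G i →* MulAut (G i)).range)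
      (n : I → ℕ) (hn : ∀ i, ((3 * Nat.card (G i) + 2).factorial) ^ 3 ≤ n i)
      (hN : Nonempty (p.ker ≃* (∀ i, Wreath (G i) (n i)))) : Step K D p
  | symmetric {Γ B : Type} [Group Γ] [Group B] [Finite B] (α : B →* Γ)
      (hα : Function.Surjective α) (n : ℕ) (hn : n ∈ D.sym Γ B α) : Step K D (symPr α n)
  | alternating {Γ B : Type} [Group Γ] [Group B] [Finite B] (α : B →* Γ)
      (hα : Function.Surjective α) (χ : Γ →* ℤˣ) (n : ℕ) (hn : n ∈ D.alt Γ B α)
      (hχ : (∃ I : ℕ, Odd I ∧ IsSplittingIndex α I) ∨ χ = 1) : Step K D (altPr α χ n)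
  | comp {Γ X Y : Type} [Group Γ] [Group X] [Group Y] (p : X →* Γ) (q : Y →* X)
      (hp : Step K D p) (hq : Step K D q) : Step K D (p.comp q)
  | quot {Γ X Y : Type} [Group Γ] [Group X] [Group Y] (p : X →* Γ) (q : Y →* X)
      (hq : Function.Surjective q) (hpq : Step K D (p.comp q)) : Step K D p
  | pullback {Γ X Γ' X' : Type} [Group Γ] [Group X] [Group Γ'] [Finite Γ'] [Group X']
      (p : X →* Γ) (p' : X' →* Γ') (hp : IsPullback p p') (h : Step K D p) : Step K D p'
  | induced {Γ X Y : Type} [Group Γ] [Group X] [Finite X] [Group Y] (p : X →* Γ)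
      (hp : Function.Surjective p) (Δ : Subgroup Γ) (q : Y →* Δ) (hq : IsInduced p Δ q)
      (h : Step K D q) : Step K D p

end Pool.Agent.H84.ML
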