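import Mathlib
import Pool.Agent.H84.ML.Alt
import Pool.Agent.H84.L.A3_N600_UK_Sym
import Pool.Agent.H84.L.A7_T2H67_AG_PK
import Pool.Agent.H84.L.A7_T2H67_SA_Cl
import Pool.Agent.H84.L.A7_T2H67_SA_Cl2
import Pool.Agent.H84.L.A7_T2H67_SA_Even
import Pool.Agent.H84.L.A7_T2H67_SA_PA
import Pool.Agent.H84.L.A7_T2H67_SA_Theta
import Pool.Agent.H84.L.A9_W5h93_MX_Core
import Pool.Agent.H84.L.A9_W5h93_MX_Real
import Pool.Agent.H84.L.S8_H391R2_T4_Abl
import Pool.Agent.H84.L.S8_H391R2_WrGrp
import Pool.Agent.H84.L.S8_H484R2_Cont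
import Pool.Agent.H84.L.S8_R70_MA_Base
import Pool.Agent.H84.L.S8_TH15_IGP_TwT
import Pool.Agent.H84.L.S8_TH444_ML_Defs
import Pool.Agent.H84.L.S8_TH444_ML_Real
import Pool.Agent.H84.L.S8_TH444_ML_WrG
import Pool.Agent.H84.L.S8_TH444_TW_ClsDef
import Pool.Agent.H84.L.S8_TH444_TW_RS
import Pool.Agent.H84.L.S8_TH444_TW_RSK
import Pool.Agent.H84.L.S8_W200_IG_HF
import Pool.Agent.H84.L.S8_Y195_DCN_Fin
import Pool.Agent.H84.L.S8_Y461_DC_ComplA
import Pool.Agent.H84.L.S8_Y676_DSP_Simple

/-!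
# Realizability, and small core-free subgroups
-/

set_option autoImplicit false
set_option linter.unusedSectionVars false
set_option linter.unusedVariables false

namespace Pool.Agent.H84.ML

open Pool.Agent.H391R2 (Wr)
open Pool.Agent.TH444.TW (Cls RSK)
open Pool.Agent.TH444.ML (Gal fd_of_finite_aut)
open Pool.Agent.W5h93.MX (IsG isG_of_gal)

/-- groups over Galois groups -/
theorem gal_of_rsk (K : Type) [Field K] [NumberField K] {Γ X : Type} [Group Γ] [Group X]
    [Finite X] (p : X →* Γ) (hs : Function.Surjective p) (hp : RSK K p) (hΓ : IsG K Γ) :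
    (Gal K (AlgebraicClosure K) X).Nonempty := by
  obtain ⟨L, i1, i2, i3, ⟨e⟩⟩ := hΓ
  have hfΓ : Finite Γ := Finite.of_surjective p hs
  have hfin : Finite (L ≃ₐ[K] L) := Finite.of_equiv Γ e.toEquiv
  have hfd : FiniteDimensional K L := fd_of_finite_aut K L
  have hs := hp.stepSol (Pool.Agent.H391R2.T4.hilb_numberField K)
  obtain ⟨F, j1, j2, j3, j4, j5, j6, γ, -⟩ := hs L e.symm
  exact Pool.Agent.R70.MA.gal_nonempty_of K (AlgebraicClosure K) F X γ

theorem isG_unit (K : Type) [Field K] : IsG K Unit := by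
  refine ⟨K, inferInstance, inferInstance, inferInstance, ⟨?_⟩⟩
  have hs : Subsingleton (K ≃ₐ[K] K) := ⟨fun σ τ => by
    ext x
    exact (σ.commutes x).trans (τ.commutes x).symm⟩
  have hu : Unique (K ≃ₐ[K] K) := ⟨⟨1⟩, fun σ => Subsingleton.elim _ _⟩
  exact MulEquiv.ofUnique

/-- the groups in the class `Peelable` are Galois groups -/
theorem isG_of_peelable (K : Type) [Field K] [NumberField K] (Y : Type) [Group Y] [Finite Y]
    (h : Peelable Y) : IsG K Y := by
  have h1 : RSK K (1 : Y →* Unit) := (peelable_of K Y h).rsk Unit Y 1 1 (fun w => rfl)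
    (MonoidHom.id Y) (fun _ _ h => h) (by
      ext y
      exact ⟨fun _ => rfl, fun _ => ⟨y, rfl⟩⟩)
  obtain ⟨M, hM⟩ := gal_of_rsk K (1 : Y →* Unit) (fun w => ⟨1, rfl⟩) h1 (isG_unit K)
  exact isG_of_gal K (MonoidHom.id Y) Function.surjective_id hM

/-- the projection `X × S_n → X` is in the class of the library -/
theorem fst_cls (K : Type) [Field K] [Infinite K] (X : Type) [Group X] (n : ℕ) :
    Cls K (MonoidHom.fst X (Equiv.Perm (Fin n))) := by
  refine Cls.inner _ (Equiv.Perm (Fin n)) (Pool.Agent.N600.UK.regularOver_perm K n) ?_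
  let ι : (Fin 1 → Equiv.Perm (Fin n)) →* X × Equiv.Perm (Fin n) :=
    { toFun := fun x => (1, x 0)
      map_one' := rfl
      map_mul' := fun x y => by
        ext
        · simp
        · rfl }
  refine ⟨1, 1, ι, MonoidHom.inl X _, ?_, ?_, fun w => rfl, ?_⟩
  · intro x y hxy
    have h : x 0 = y 0 := congrArg Prod.snd hxy
    funext i
    rw [Subsingleton.elim i 0, h]
  · ext ⟨a, σ⟩
    rw [MonoidHom.mem_ker, MonoidHom.mem_range]
    constructor
    · rintro ⟨x, hx⟩
      exact (congrArg Prod.fst hx).symm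
    · intro h
      have h' : a = 1 := h
      subst h'
      exact ⟨fun _ => σ, rfl⟩
  · intro w x
    apply Prod.ext
    · change w * 1 = 1 * w
      simp
    · change 1 * x 0 = (1 * x ((1 : Equiv.Perm (Fin 1)) 0) * 1⁻¹) * 1
      simp

/-- The subgroup `1 × Stab(i)` of `X × S_n`. -/
theorem core_prod16 (X : Type) [Group X] [Finite X] (n : ℕ) (hn : 10 ≤ n) (hX : Nat.card X ≤ n) :
    ∃ U : Subgroup (X × Equiv.Perm (Fin n)), U.normalCore = ⊥ ∧
      16 * U.index * (U.index + 1) ≤ Nat.card (X × Equiv.Perm (Fin n)) := by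
  have hX1 : 1 ≤ Nat.card X := Nat.card_pos
  have hcard : Nat.card (X × Equiv.Perm (Fin n)) = Nat.card X * n.factorial := by
    rw [Nat.card_prod, Nat.card_perm, Nat.card_fin]
  have i0 : Fin n := ⟨0, by omega⟩
  refine ⟨Subgroup.prod ⊥ (MulAction.stabilizer (Equiv.Perm (Fin n)) i0), ?_, ?_⟩
  · rw [eq_bot_iff]
    rintro ⟨x, σ⟩ hx
    rw [Subgroup.mem_bot]
    have h1 := Subgroup.normalCore_le _ hx
    rw [Subgroup.mem_prod] at h1
    have h2 : x = 1 := h1.1
    have h3 : σ = 1 := by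
      ext i
      have h4 := hx ((1 : X), Equiv.swap i i0)
      rw [Subgroup.mem_prod] at h4
      have h5 : (Equiv.swap i i0 * σ * (Equiv.swap i i0)⁻¹) i0 = i0 := h4.2
      rw [Equiv.swap_inv, Equiv.Perm.mul_apply, Equiv.Perm.mul_apply, Equiv.swap_apply_right]
        at h5
      have h6 := congrArg (Equiv.swap i i0) h5
      rw [Equiv.swap_apply_self, Equiv.swap_apply_right] at h6
      rw [h6]
      rfl
    rw [h2, h3]
    rfl
  · have hidx : (Subgroup.prod (⊥ : Subgroup X)
        (MulAction.stabilizer (Equiv.Perm (Fin n)) i0)).index = Nat.card X * n := by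
      have h1 : (Subgroup.prod (⊥ : Subgroup X)
          (MulAction.stabilizer (Equiv.Perm (Fin n)) i0)).index =
          (⊥ : Subgroup X).index * (MulAction.stabilizer (Equiv.Perm (Fin n)) i0).index :=
        Subgroup.index_prod _ _
      rw [h1, Subgroup.index_bot, MulAction.index_stabilizer]
      congr 1
      have h2 : MulAction.orbit (Equiv.Perm (Fin n)) i0 = Set.univ := by
        rw [Set.eq_univ_iff_forall]
        intro i
        exact ⟨Equiv.swap i0 i, Equiv.swap_apply_left i0 i⟩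
      rw [h2, Set.ncard_univ, Nat.card_fin]
    rw [hidx, hcard]
    have h3 : 16 * n * (n * n + 1) ≤ n.factorial := by
      obtain ⟨m, rfl⟩ := Nat.exists_eq_add_of_le hn
      have e2 : (10 + m).factorial = (10 + m) * ((9 + m) * ((8 + m) * ((7 + m) *
          ((6 + m) * (5 + m).factorial)))) := by
        rw [show 10 + m = (9 + m) + 1 by ring, Nat.factorial_succ,
          show 9 + m = (8 + m) + 1 by ring, Nat.factorial_succ,
          show 8 + m = (7 + m) + 1 by ring, Nat.factorial_succ,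
          show 7 + m = (6 + m) + 1 by ring, Nat.factorial_succ,
          show 6 + m = (5 + m) + 1 by ring, Nat.factorial_succ]
      have h5 : 120 ≤ (5 + m).factorial :=
        (by decide : 120 = (5 : ℕ).factorial).le.trans (Nat.factorial_le (by omega))
      have h6 : 16 * ((10 + m) * (10 + m) + 1) ≤ (9 + m) * ((8 + m) * ((7 + m) * 120)) := by
        nlinarith [Nat.zero_le m, Nat.zero_le (m * m), Nat.zero_le (m * m * m)]
      rw [e2]
      calc 16 * (10 + m) * ((10 + m) * (10 + m) + 1)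
          = (10 + m) * (16 * ((10 + m) * (10 + m) + 1)) := by ring
        _ ≤ (10 + m) * ((9 + m) * ((8 + m) * ((7 + m) * 120))) := Nat.mul_le_mul_left _ h6
        _ ≤ (10 + m) * ((9 + m) * ((8 + m) * ((7 + m) * ((6 + m) * (5 + m).factorial)))) := by
            refine Nat.mul_le_mul_left _ (Nat.mul_le_mul_left _ (Nat.mul_le_mul_left _
              (Nat.mul_le_mul_left _ ?_)))
            nlinarith
    calc 16 * (Nat.card X * n) * (Nat.card X * n + 1)
        = Nat.card X * (16 * n * (Nat.card X * n + 1)) := by ring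
      _ ≤ Nat.card X * (16 * n * (n * n + 1)) := by gcongr
      _ ≤ _ := Nat.mul_le_mul_left _ h3

section bound

theorem fact_lower16 (n : ℕ) (hn : 40 ≤ n) : 32 * n ^ 2 * (n - 3).factorial ≤ n.factorial := by
  obtain ⟨m, rfl⟩ := Nat.exists_eq_add_of_le hn
  have e1 : 40 + m - 3 = 37 + m := by omega
  have e2 : (40 + m).factorial = (40 + m) * ((39 + m) * ((38 + m) * (37 + m).factorial)) := by
    rw [show 40 + m = (39 + m) + 1 by ring, Nat.factorial_succ,
      show 39 + m = (38 + m) + 1 by ring, Nat.factorial_succ,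
      show 38 + m = (37 + m) + 1 by ring, Nat.factorial_succ]
  rw [e1, e2]
  have h : 32 * (40 + m) ^ 2 ≤ (40 + m) * ((39 + m) * (38 + m)) := by nlinarith
  calc 32 * (40 + m) ^ 2 * (37 + m).factorial
      ≤ ((40 + m) * ((39 + m) * (38 + m))) * (37 + m).factorial := Nat.mul_le_mul_right _ h
    _ = _ := by ring

theorem sq_le16 {a n : ℕ} (ha : 1 ≤ a) (hn : 40 ≤ n) :
    32 * (a * n) ^ 2 * (n - 3).factorial ≤ a ^ n * n.factorial := by
  have h1 := fact_lower16 n hn
  have h2 : a ^ 2 ≤ a ^ n := Nat.pow_le_pow_right ha (by omega)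
  calc 32 * (a * n) ^ 2 * (n - 3).factorial = a ^ 2 * (32 * n ^ 2 * (n - 3).factorial) := by ring
    _ ≤ a ^ n * n.factorial := Nat.mul_le_mul h2 h1

theorem sq_le16' {a n : ℕ} (ha : 1 ≤ a) (hn : 40 ≤ n) : (a * n) ^ 2 ≤ a ^ n * n.factorial := by
  refine le_trans ?_ (sq_le16 ha hn)
  have : 1 ≤ (n - 3).factorial := Nat.factorial_pos _
  nlinarith [Nat.zero_le ((a * n) ^ 2)]

/-- the inequality -/
theorem prod_bound16 {ι : Type} [Fintype ι] [DecidableEq ι] (a n : ι → ℕ) (ha : ∀ i, 1 ≤ a i)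
    (hn : ∀ i, 40 ≤ n i) (q : ℕ) (hq1 : 1 ≤ q) (j : ι) (hq : q ≤ (n j - 3).factorial) :
    16 * (q * ∏ i, (a i * n i)) * (q * (∏ i, (a i * n i)) + 1) ≤
      q * ∏ i, (a i ^ n i * (n i).factorial) := by
  set M := ∏ i, (a i * n i) with hM
  have hM1 : 1 ≤ M := Nat.one_le_iff_ne_zero.2 (Finset.prod_ne_zero_iff.2 fun i _ =>
    Nat.mul_ne_zero (by have := ha i; omega) (by have := hn i; omega))
  have hqM : 1 ≤ q * M := Nat.one_le_iff_ne_zero.2 (Nat.mul_ne_zero (by omega) (by omega))
  have h1 : 16 * (q * M) * (q * M + 1) ≤ q * (32 * q * M ^ 2) := by nlinarith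
  refine h1.trans (Nat.mul_le_mul_left _ ?_)
  rw [hM, ← Finset.prod_pow, ← Finset.mul_prod_erase _ _ (Finset.mem_univ j),
    ← Finset.mul_prod_erase _ _ (Finset.mem_univ j), ← mul_assoc]
  refine Nat.mul_le_mul ?_ (Finset.prod_le_prod' fun i _ => sq_le16' (ha i) (hn i))
  calc 32 * q * (a j * n j) ^ 2 = 32 * (a j * n j) ^ 2 * q := by ring
    _ ≤ 32 * (a j * n j) ^ 2 * (n j - 3).factorial := Nat.mul_le_mul_left _ hq
    _ ≤ _ := sq_le16 (ha j) (hn j)

end bound

section wreath

open Pool.Agent.W5h93.MX (core_map core_equiv core_pi index_pi')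

variable {ι : Type} [Finite ι] (G : ι → Type) [∀ i, Group (G i)] [∀ i, Finite (G i)] (n : ι → ℕ)

/-- A group `X` with a normal subgroup isomorphic to a nontrivial product of groups
`G_i ≀ S_(n_i)`. -/
theorem small16 (hn : ∀ i, 40 ≤ n i) (X : Type) [Group X] [Finite X] (N : Subgroup X) [N.Normal]
    (e : N ≃* (∀ i, Wr (G i) (n i))) (j : ι) (hq : N.index ≤ (n j - 3).factorial) :
    ∃ U : Subgroup X, U.normalCore = ⊥ ∧ 16 * U.index * (U.index + 1) ≤ Nat.card X := by
  classical
  have : Fintype ι := Fintype.ofFinite ι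
  choose V hV1 hV2 using fun i => Pool.Agent.TH444.ML.wr_core (G i) (n i) (by have := hn i; omega)
  let W : Subgroup (∀ i, Wr (G i) (n i)) := Subgroup.pi Set.univ V
  let U₀ : Subgroup N := W.comap e.toMonoidHom
  have hW : W.index = ∏ i, (Nat.card (G i) * n i) := by
    rw [index_pi']
    exact Finset.prod_congr rfl fun i _ => hV2 i
  have hU₀ : U₀.index = ∏ i, (Nat.card (G i) * n i) := by
    rw [← hW]
    exact Subgroup.index_comap_of_surjective W e.surjective
  refine ⟨U₀.map N.subtype, core_map N U₀ (core_equiv e W (core_pi V hV1)), ?_⟩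
  rw [Subgroup.index_map_subtype, hU₀]
  have hcard : Nat.card X = N.index * ∏ i, (Nat.card (G i) ^ n i * (n i).factorial) := by
    rw [← Subgroup.index_mul_card N, Nat.card_congr e.toEquiv, Nat.card_pi]
    congr 1
    exact Finset.prod_congr rfl fun i _ => Pool.Agent.TH444.ML.wr_card (G i) (n i)
  have hq1 : 1 ≤ N.index := Nat.one_le_iff_ne_zero.2 Subgroup.index_ne_zero_of_finite
  rw [hcard, mul_comm _ N.index]
  exact prod_bound16 (fun i => Nat.card (G i)) n (fun i => Nat.card_pos) hn N.index hq1 j hq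

end wreath

end Pool.Agent.H84.ML
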