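import Mathlib
import Pool.Agent.H84.ML.DefT
import Pool.Agent.H84.L.A3_N600_NS_Main
import Pool.Agent.H84.L.A3_N70_AW_Rl
import Pool.Agent.H84.L.A3_N70_EP_Stm
import Pool.Agent.H84.L.A3_N70_EP_TC
import Pool.Agent.H84.L.A3_N70_EP_Voc
import Pool.Agent.H84.L.A3_N70_EP_VocSB
import Pool.Agent.H84.L.A3_N70_EQ_Fin
import Pool.Agent.H84.L.A3_N70_EQ_Sb
import Pool.Agent.H84.L.A3_N70_EQ_VocTB
import Pool.Agent.H84.L.S8_H391R2_T4_Red
import Pool.Agent.H84.L.S8_H391R2_T4_Sym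
import Pool.Agent.H84.L.S8_H391R2_WrGrp
import Pool.Agent.H84.L.S8_TH444_TW_Cls
import Pool.Agent.H84.L.S8_TH444_TW_RS
import Pool.Agent.H84.L.S8_TH444_TW_RSK
import Pool.Agent.H84.L.S8_Y793_E_MainA

/-!
# The sets of degrees of fibre powers
-/

set_option autoImplicit false
set_option linter.unusedSectionVars false
set_option linter.unusedVariables false

namespace Pool.Agent.H84.ML

open Pool.Agent.H391R2 Pool.Agent.H391R2.T4
open Pool.Agent.TH444.TW (RSK infinite_ratFunc finite_of_ker regSol_of_regularOver)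
open Pool.Agent.N70.EP (setB SplitIdx)
open Pool.Agent.N70.EQ (hyp)

/-- The sets of degrees. -/
def deg : Degrees where
  sym Γ B _ _ α := {n | Finite Γ → Finite B → Function.Surjective α → RSK ℚ (symProj α n)}
  alt Γ B _ _ α := {n | 2 ≤ n ∧ n ∈ setB α}

theorem rsk_symPr {B Γ : Type} [Group B] [Group Γ] (α : B →* Γ) (n : ℕ)
    (h : RSK ℚ (symProj α n)) : RSK ℚ (symPr α n) := h

theorem rsk_altPr {B Γ : Type} [Group B] [Group Γ] (α : B →* Γ) (χ : Γ →* ℤˣ) (n : ℕ)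
    (h : RSK ℚ (Pool.Agent.N70.EP.Voc.twPr α χ n)) : RSK ℚ (altPr α χ n) := h

theorem splitIdx_of {B Γ : Type} [Group B] [Group Γ] {α : B →* Γ} {I n : ℕ}
    (h : IsSplittingIndex α I) (hn : I ∣ n) : SplitIdx α n := by
  intro d hd
  exact ((h.2 d).2 hd).trans hn

theorem sym_bound (Γ B : Type) [Group Γ] [Finite Γ] [Group B] [Finite B] (α : B →* Γ)
    (hα : Function.Surjective α) (n : ℕ) (hn : ((3 * Nat.card B + 2).factorial) ^ 3 ≤ n)
    (hd : Nat.card Γ ∣ n) : RSK ℚ (symProj α n) := by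
  intro K M _ _ _ _ _ _ _ ε
  have hcK : CharZero K := charZero_of_injective_algebraMap (algebraMap ℚ K).injective
  have h1 := Pool.Agent.N600.NS.uniform_main K M B ((ε.symm : Γ →* (M ≃ₐ[K] M)).comp α)
    (ε.symm.surjective.comp hα) n hn (by rw [Nat.card_congr ε.toEquiv]; exact hd)
  refine Pool.Agent.Y793.regSol_iso K M _ _ _ _ (Pool.Agent.N70.EQ.symTrans ε α n)
    (fun z => ?_) h1
  exact ε.symm_apply_apply _

/-- almost all multiples are at least two -/
theorem almostAll_two (d : ℕ) (A : ℕ → Prop) (h : AlmostAllMultiples d A) :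
    AlmostAllMultiples d (fun n => 2 ≤ n ∧ A n) := by
  classical
  intro ε hε
  obtain ⟨N, hN⟩ := h (ε / 2) (by positivity)
  obtain ⟨N', hN'⟩ := exists_nat_ge (2 / (ε / 2))
  refine ⟨N + N', fun x hx => ?_⟩
  have h3 : ((Finset.range x).filter fun n => d ∣ n ∧ ¬ (2 ≤ n ∧ A n)).card ≤
      2 + ((Finset.range x).filter fun n => d ∣ n ∧ ¬ A n).card := by
    refine le_trans (Finset.card_le_card (t := Finset.range 2 ∪
      (Finset.range x).filter fun n => d ∣ n ∧ ¬ A n) ?_)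
      ((Finset.card_union_le _ _).trans (by rw [Finset.card_range]))
    intro n hn
    rw [Finset.mem_filter, Finset.mem_range] at hn
    rw [Finset.mem_union, Finset.mem_range, Finset.mem_filter, Finset.mem_range]
    by_cases h4 : 2 ≤ n
    · exact Or.inr ⟨hn.1, hn.2.1, fun h5 => hn.2.2 ⟨h4, h5⟩⟩
    · exact Or.inl (by omega)
  have h5 : (2 : ℝ) ≤ (ε / 2) * x := by
    have h6 : (N' : ℝ) ≤ x := by exact_mod_cast (by omega : N' ≤ x)
    have h7 : 2 / (ε / 2) ≤ x := hN'.trans h6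
    rw [div_le_iff₀ (by positivity)] at h7
    linarith
  have h8 := hN x (by omega)
  have h9 : ((((Finset.range x).filter fun n => d ∣ n ∧ ¬ (2 ≤ n ∧ A n)).card : ℕ) : ℝ) ≤
      ((2 + ((Finset.range x).filter fun n => d ∣ n ∧ ¬ A n).card : ℕ) : ℝ) :=
    Nat.cast_le.2 h3
  push_cast at h9
  refine le_trans (le_of_eq ?_) (h9.trans ?_)
  · congr!
  have h10 : (((Finset.range x).filter fun n => d ∣ n ∧ ¬ A n).card : ℝ) ≤ ε / 2 * x := by
    refine le_trans (le_of_eq ?_) h8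
    congr!
  linarith

theorem deg_large : deg.Large where
  sym Γ B _ _ _ _ α hα I hI := by
    obtain ⟨n₀, hn₀⟩ := Pool.Agent.N70.EQ.symU Γ B α hα
    exact ⟨n₀, fun n hn hd _ _ _ => hn₀ n hn (splitIdx_of hI hd)⟩
  symBound Γ B _ _ _ _ α hα n hn hd := fun _ _ _ => sym_bound Γ B α hα n hn hd
  alt Γ B _ _ _ _ α hα I hI := almostAll_two _ _ (Pool.Agent.N70.EQ.setB_dens7 hyp α hα I hI)

end Pool.Agent.H84.ML
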