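import Mathlib
import Pool.Agent.H84.ML.KerT
import Pool.Agent.H84.ML.Alt
import Pool.Agent.H84.L.A3_N559_EQ_GS
import Pool.Agent.H84.L.A3_N600_NS_Pa
import Pool.Agent.H84.L.A3_N600_NS_SemA
import Pool.Agent.H84.L.A3_N70_AW_Rl
import Pool.Agent.H84.L.A3_N70_EP_GrN
import Pool.Agent.H84.L.A3_N70_EP_Sg
import Pool.Agent.H84.L.A3_N70_EP_Stm
import Pool.Agent.H84.L.A3_N70_EP_VocSB
import Pool.Agent.H84.L.A3_N75_EP_Pul
import Pool.Agent.H84.L.A3_N945_AW_Val
import Pool.Agent.H84.L.A6_H789_NK_Main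
import Pool.Agent.H84.L.A7_T2H67_AG_PK
import Pool.Agent.H84.L.A7_T2H67_SA_KerDef
import Pool.Agent.H84.L.A7_T2H67_SA_Main
import Pool.Agent.H84.L.S8_H391R2_T4_Nod
import Pool.Agent.H84.L.S8_H391R2_T4_Red
import Pool.Agent.H84.L.S8_H391R2_T4_Sem
import Pool.Agent.H84.L.S8_H391R2_WrGrp
import Pool.Agent.H84.L.S8_R367_IG_Nod
import Pool.Agent.H84.L.S8_R367_IG_Sem
import Pool.Agent.H84.L.S8_TH377_IG_Bc2
import Pool.Agent.H84.L.S8_TH444_TW_Cls
import Pool.Agent.H84.L.S8_TH444_TW_IndD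
import Pool.Agent.H84.L.S8_TH444_TW_Loc
import Pool.Agent.H84.L.S8_TH444_TW_Pow
import Pool.Agent.H84.L.S8_TH444_TW_RS
import Pool.Agent.H84.L.S8_TH444_TW_RSK
import Pool.Agent.H84.L.S8_TH444_TW_Split
import Pool.Agent.H84.L.S8_W200_IG_Fam
import Pool.Agent.H84.L.S8_W200_IJ_SA
import Pool.Agent.H84.L.S8_Y195_DCN_Fin
import Pool.Agent.H84.L.S8_Y461_DC_ComplA
import Pool.Agent.H84.L.S8_Y60_DC_StmSp
import Pool.Agent.H84.L.S8_Y676_DSP_Simple
import Pool.Agent.H84.L.S8_Y793_E_All

/-!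
# Regular solutions for the class
-/

set_option autoImplicit false
set_option linter.unusedSectionVars false
set_option linter.unusedVariables false

namespace Pool.Agent.H84.ML

open Pool.Agent.H391R2 Pool.Agent.H391R2.T4
open Pool.Agent.TH444.TW
open Pool.Agent.TH377.IG (FP prFP)

/-- pull-back -/
theorem rsk_pullback (K : Type) [Field K] {Γ X Γ' X' : Type} [Group Γ] [Group X] [Finite X]
    [Group Γ'] [Finite Γ'] [Group X'] (p : X →* Γ) (p' : X' →* Γ') (hp : IsPullback p p')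
    (h : RSK K p) : Finite X' ∧ RSK K p' := by
  obtain ⟨r, r', hr, hc, hi, hs⟩ := hp
  let f : X' →* FP p r := MonoidHom.mk' (fun x => ⟨(r' x, p' x), hc x⟩) (fun x y =>
    Subtype.ext (Prod.ext (map_mul r' x y) (map_mul p' x y)))
  have hf : Function.Bijective f := by
    constructor
    · rw [injective_iff_map_eq_one]
      intro x hx
      exact hi x (congrArg (fun z : FP p r => z.1.1) hx) (congrArg (fun z : FP p r => z.1.2) hx)
    · rintro ⟨⟨x, γ⟩, hx⟩
      obtain ⟨z, h1, h2⟩ := hs x γ hx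
      exact ⟨z, Subtype.ext (Prod.ext h1 h2)⟩
  have hfin : Finite X' := Finite.of_injective f hf.1
  refine ⟨hfin, ?_⟩
  have h1 := Pool.Agent.N75.EP.t_pul K Γ X Γ' p r hr h
  exact RSK.congr h1 (MulEquiv.ofBijective f hf).symm fun x => by
    obtain ⟨y, rfl⟩ := (MulEquiv.ofBijective f hf).surjective x
    rw [MulEquiv.symm_apply_apply]
    rfl

/-- induction -/
theorem rsk_induced (K : Type) [Field K] {Γ X Y : Type} [Group Γ] [Finite Γ] [Group X]
    [Finite X] [Group Y] [Finite Y] (p : X →* Γ) (hp : Function.Surjective p) (Δ : Subgroup Γ)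
    (q : Y →* Δ) (hq : IsInduced p Δ q) (h : RSK K q) : RSK K p := by
  obtain ⟨r, h1, h2, h3⟩ := hq
  intro E L _ _ _ _ _ _ _ ε
  let Δ' : Subgroup (L ≃ₐ[E] L) := Δ.comap (ε : (L ≃ₐ[E] L) →* Γ)
  let E' := IntermediateField.fixedField Δ'
  -- the Galois group of `L` over the fixed field
  let e₁ : Δ' ≃* (L ≃ₐ[E'] L) :=
    (MulEquiv.subgroupCongr (IntermediateField.fixingSubgroup_fixedField Δ').symm).trans
      (IntermediateField.fixingSubgroupEquiv (IntermediateField.fixedField Δ'))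
  have he₁ : ∀ (σ : Δ') (x : L), e₁ σ x = (σ : L ≃ₐ[E] L) x := fun σ x => rfl
  let e₂ : Δ' ≃* Δ :=
    { toFun := fun σ => ⟨ε σ.1, σ.2⟩
      invFun := fun δ => ⟨ε.symm δ.1, by
        change ε (ε.symm δ.1) ∈ Δ
        rw [ε.apply_symm_apply]
        exact δ.2⟩
      left_inv := fun σ => Subtype.ext (ε.symm_apply_apply _)
      right_inv := fun δ => Subtype.ext (ε.apply_symm_apply _)
      map_mul' := fun σ τ => Subtype.ext (map_mul ε _ _) }
  let e₃ : (L ≃ₐ[E'] L) ≃* Δ := e₁.symm.trans e₂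
  have hinf : Infinite E' :=
    Infinite.of_injective _ (algebraMap E E').injective
  let _ : Algebra K E' := ((algebraMap E E').comp (algebraMap K E)).toAlgebra
  have hsol : RegSol E' L Y (e₃.symm.toMonoidHom.comp q) := h E' L e₃
  have hcomap : Δ'.comap (ε.symm.toMonoidHom.comp p) = Δ.comap p := by
    ext x
    change ε (ε.symm (p x)) ∈ Δ ↔ p x ∈ Δ
    rw [ε.apply_symm_apply]
  let c : Δ'.comap (ε.symm.toMonoidHom.comp p) ≃* Δ.comap p := MulEquiv.subgroupCongr hcomap
  have hc : ∀ x, (c x : X) = x := fun x => rfl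
  refine induce_le Δ' (ε.symm.toMonoidHom.comp p) (ε.symm.surjective.comp hp)
    (r.comp c.toMonoidHom) (e₃.symm.toMonoidHom.comp q) ?_ ?_ ?_ hsol
  · intro x l
    have h4 : (q (r (c x)) : Γ) = p x := h1 (c x)
    have h5 : ((e₂.symm (q (r (c x))) : Δ') : L ≃ₐ[E] L) = ε.symm (p x) := by
      change ε.symm (q (r (c x)) : Γ) = _
      rw [h4]
    change e₁ (e₂.symm (q (r (c x)))) l = ε.symm (p x) l
    rw [he₁, h5]
  · intro n hn hq
    have hn' : p n = 1 := by
      have h6 : ε.symm (p n) = 1 := hn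
      exact (map_eq_one_iff ε.symm ε.symm.injective).1 h6
    refine h2 n hn' fun x y hy => ?_
    exact hq x (c.symm y) hy
  · have hi : Δ'.index = Δ.index := Subgroup.index_comap_of_surjective Δ ε.surjective
    have hk1 : (e₃.symm.toMonoidHom.comp q).ker = q.ker := by
      ext y
      rw [MonoidHom.mem_ker, MonoidHom.mem_ker]
      exact map_eq_one_iff e₃.symm e₃.symm.injective
    have hk2 : (ε.symm.toMonoidHom.comp p).ker = p.ker := by
      ext y
      rw [MonoidHom.mem_ker, MonoidHom.mem_ker]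
      exact map_eq_one_iff ε.symm ε.symm.injective
    rw [hi, hk1, hk2]
    exact h3

/-- powers -/
theorem rsk_power (K : Type) [Field K] {B N : Type} [Group B] [Group N] [Finite N]
    (θ : B →* MulAut N) {Γ X : Type} [Group Γ] [Finite Γ] [Group X] (p : X →* Γ)
    (hp : IsPower θ p) (hloc : LocK K θ) : Finite X ∧ RSK K p := by
  obtain ⟨k, ψ, ι, s, hι, hr, hs, hc⟩ := hp
  refine ⟨finite_of_sd p ι fun w' hw' => by
      have h2 : w' ∈ ι.range := by rw [hr]; exact hw'
      exact h2, ?_⟩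
  obtain ⟨e, he⟩ := exists_sdEquiv ((powAct θ k).comp ψ) p ι s hι hr hs hc
  refine RSK.congr (pow_rsk θ ψ hloc) e.symm fun x => ?_
  obtain ⟨y, rfl⟩ := e.surjective x
  rw [MulEquiv.symm_apply_apply]
  exact (he y).symm

theorem locK_wreath (K G : Type) [Field K] [Group G] [Finite G] (n : ℕ)
    (hn : ((3 * Nat.card G + 2).factorial) ^ 3 ≤ n) : LocK K (wreathAct G n) := by
  intro K' M' _ _ _ _ _ _ _ β
  exact loc_wr G n hn K' M' β

theorem locK_normOne (K G : Type) [Field K] [CharZero K] [Group G] [Finite G] (n : ℕ)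
    (hn : ((3 * Nat.card G + 2).factorial) ^ 3 ≤ n) : LocK K (normOneAct G n) := by
  intro K' M' _ _ _ _ _ _ _ β
  exact Pool.Agent.H789.NK.locK_no K G n hn K' M' β

theorem built_of {E : Type} [Group E] {H₀ P : Subgroup E} (h : Built H₀ P) :
    Pool.Agent.T2H67.SA.Built H₀ P := by
  induction h with
  | one => exact Pool.Agent.T2H67.SA.Built.one
  | step P N hP hN hc ih => exact Pool.Agent.T2H67.SA.Built.step P N ih hN hc

/-- split kernels in the class `Built` -/
theorem rsk_central (K : Type) [Field K] [CharZero K] {Γ X : Type} [Group Γ] [Group X] [Finite X]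
    (p : X →* Γ) (s : Γ →* X) (hs : ∀ γ, p (s γ) = γ) (h : Built s.range p.ker) : RSK K p := by
  intro E M _ _ _ _ _ _ _ ε
  have hcE : CharZero E := charZero_of_injective_algebraMap (algebraMap K E).injective
  have hk : (ε.symm.toMonoidHom.comp p).ker = p.ker := by
    ext y
    rw [MonoidHom.mem_ker, MonoidHom.mem_ker]
    exact map_eq_one_iff ε.symm ε.symm.injective
  have hr : (s.comp ε.toMonoidHom).range = s.range := by
    ext y
    constructor
    · rintro ⟨σ, rfl⟩
      exact ⟨ε σ, rfl⟩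
    · rintro ⟨γ, rfl⟩
      exact ⟨ε.symm γ, congrArg s (ε.apply_symm_apply γ)⟩
  refine Pool.Agent.T2H67.SA.built_reg E M X (ε.symm.toMonoidHom.comp p) M
    (s.comp ε.toMonoidHom) (fun ρ => ?_) ?_
  · rw [restrictNormal_self]
    change ε.symm (p (s (ε ρ))) = ρ
    rw [hs, ε.symm_apply_apply]
  · rw [hk, hr]
    exact built_of h

theorem surj_symPr {B Γ : Type} [Group B] [Group Γ] (α : B →* Γ) (hα : Function.Surjective α)
    (n : ℕ) : Function.Surjective (symPr α n) := by
  intro γ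
  obtain ⟨b, rfl⟩ := hα γ
  exact ⟨⟨(⟨fun _ => b, 1⟩, α b), fun _ => rfl⟩, rfl⟩

theorem surj_altPr {B Γ : Type} [Group B] [Group Γ] (α : B →* Γ) (hα : Function.Surjective α)
    (χ : Γ →* ℤˣ) (n : ℕ) (hn : 2 ≤ n) : Function.Surjective (altPr α χ n) := by
  intro γ
  obtain ⟨b, rfl⟩ := hα γ
  refine ⟨⟨(⟨fun _ => b, Pool.Agent.N70.EP.sgnSec n hn (χ (α b))⟩, α b), ⟨fun _ => rfl, ?_⟩⟩, rfl⟩
  exact Pool.Agent.N70.EP.sign_sgnSec n hn _

/-- **The steps of the class are regularly solvable.** -/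
theorem Step.main {K : Type} [Field K] [CharZero K] {Γ X : Type} [Group Γ] [Group X]
    {p : X →* Γ} (h : Step K deg p) : Finite Γ → Finite X ∧ RSK K p := by
  induction h with
  | peelable p s hs hfin h =>
    intro hΓ
    have hX : Finite _ := finite_of_ker p
    exact ⟨hX, (peelable_of K _ h).rsk _ _ p s hs p.ker.subtype (Subgroup.subtype_injective _)
      (Subgroup.range_subtype _)⟩
  | central p s hs hfin h =>
    intro hΓ
    have hX : Finite _ := finite_of_ker p
    exact ⟨hX, rsk_central K p s hs h⟩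
  | inner p A hA hp =>
    intro hΓ
    exact rsk_power K _ p hp (locK_inner K A (regSol_of_regularOver hA))
  | wreath p G n hn hp =>
    intro hΓ
    have hf : Finite (Wreath G n) := finite_wr G n
    exact rsk_power K _ p hp (locK_wreath K G n hn)
  | normOne p G n hn hp =>
    intro hΓ
    have hf : Finite (Wreath G n) := finite_wr G n
    exact rsk_power K _ p hp (locK_normOne K G n hn)
  | kernel p hp I G hZ hC n hn hN =>
    intro hΓ
    obtain ⟨e⟩ := hN
    have hf1 : ∀ i, Finite (Wreath (G i) (n i)) := fun i => finite_wr (G i) (n i)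
    have hf : Finite p.ker := Finite.of_equiv _ e.symm.toEquiv
    exact ⟨finite_of_ker p, Pool.Agent.TH444.TW.kernel_rsk p hp I G hZ hC n hn ⟨e⟩⟩
  | @symmetric Γ B _ _ hB α hα n hn =>
    intro hΓ
    have hf : Finite (Wreath B n) := finite_wr B n
    exact ⟨Finite.of_injective Subtype.val Subtype.val_injective,
      rsk_char0 K (rsk_symPr α n (hn hΓ hB hα))⟩
  | @alternating Γ B _ _ hB α hα χ n hn hχ =>
    intro hΓ
    have hf : Finite (Wreath B n) := finite_wr B n
    exact ⟨Finite.of_injective Subtype.val Subtype.val_injective,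
      rsk_char0 K (rsk_altPr α χ n (hn.2 χ hχ))⟩
  | comp p q hp hq ihp ihq =>
    intro hΓ
    obtain ⟨h1, h2⟩ := ihp hΓ
    obtain ⟨h3, h4⟩ := ihq h1
    exact ⟨h3, RSK.comp h2 h4⟩
  | quot p q hq hpq ih =>
    intro hΓ
    obtain ⟨h1, h2⟩ := ih hΓ
    exact ⟨Finite.of_surjective q hq, RSK.quot q hq (fun x => rfl) h2⟩
  | pullback p p' hp h ih =>
    intro hΓ'
    obtain ⟨r, -, hr, -⟩ := id hp
    obtain ⟨h1, h2⟩ := ih (Finite.of_surjective r hr)
    exact rsk_pullback K p p' hp h2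
  | @induced Γ X Y _ _ hX _ p hp Δ q hq h ih =>
    intro hΓ
    obtain ⟨h1, h2⟩ := ih inferInstance
    exact ⟨hX, rsk_induced K p hp Δ q hq h2⟩

/-- all homomorphisms of the class with finite target are surjective -/
theorem Step.surj {K : Type} [Field K] [CharZero K] {Γ X : Type} [Group Γ] [Group X]
    {p : X →* Γ} (h : Step K deg p) : Function.Surjective p := by
  induction h with
  | peelable p s hs hfin h => exact fun w => ⟨s w, hs w⟩
  | central p s hs hfin h => exact fun w => ⟨s w, hs w⟩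
  | inner p A hA hp =>
    obtain ⟨k, ψ, ι, s, -, -, hs, -⟩ := hp
    exact fun w => ⟨s w, hs w⟩
  | wreath p G n hn hp =>
    obtain ⟨k, ψ, ι, s, -, -, hs, -⟩ := hp
    exact fun w => ⟨s w, hs w⟩
  | normOne p G n hn hp =>
    obtain ⟨k, ψ, ι, s, -, -, hs, -⟩ := hp
    exact fun w => ⟨s w, hs w⟩
  | kernel p hp I G hZ hC n hn hN => exact hp
  | symmetric α hα n hn => exact surj_symPr α hα n
  | alternating α hα χ n hn hχ => exact surj_altPr α hα χ n hn.1
  | comp p q hp hq ihp ihq => exact ihp.comp ihq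
  | quot p q hq hpq ih =>
    intro w
    obtain ⟨x, hx⟩ := ih w
    exact ⟨q x, hx⟩
  | pullback p p' hp h ih =>
    obtain ⟨r, r', hr, hc, hi, hs⟩ := hp
    intro γ
    obtain ⟨x, hx⟩ := ih (r γ)
    obtain ⟨z, -, hz⟩ := hs x γ hx
    exact ⟨z, hz⟩
  | induced p hp Δ q hq h ih => exact hp

end Pool.Agent.H84.ML
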