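import Mathlib
import Pool.Agent.H84.ML.Gal
import Pool.Agent.H84.ML.Rsk
import Pool.Agent.H84.L.A3_N70_AW_Sa
import Pool.Agent.H84.L.A9_W5h93_MX_Real
import Pool.Agent.H84.L.S8_H391R2_WrGrp
import Pool.Agent.H84.L.S8_TH444_ML_Defs
import Pool.Agent.H84.L.S8_TH444_ML_Real
import Pool.Agent.H84.L.S8_TH444_TW_ClsDef
import Pool.Agent.H84.L.S8_TH444_TW_RSK

/-!
# Realizability for the class `Step`
-/

set_option autoImplicit false
set_option linter.unusedSectionVars false
set_option linter.unusedVariables false

namespace Pool.Agent.H84.ML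

open Pool.Agent.H391R2 (Wr)
open Pool.Agent.TH444.TW (Cls RSK)
open Pool.Agent.TH444.ML (Gal fd_of_finite_aut)
open Pool.Agent.W5h93.MX (IsG isG_of_gal)

/-- the class `Cls K` of the library is contained in the class -/
theorem step_of_cls (K : Type) [Field K] (D : Degrees) {Γ X : Type} [Group Γ]
    [Group X] {p : X →* Γ} (h : Cls K p) : Step K D p := by
  induction h with
  | abelian p s hs hfin hcomm =>
    exact Step.peelable p s hs hfin
      (Peelable.comm _ fun x y => Subtype.ext (hcomm x.1 y.1 x.2 y.2))
  | inner p A hA hp => exact Step.inner p A hA hp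
  | wreath p G n hn hp => exact Step.wreath p G n hn hp
  | kernel p hs I G hZ hT n hn hN => exact Step.kernel p hs I G hZ hT n hn hN
  | comp p q hp hq ihp ihq => exact Step.comp p q ihp ihq
  | quot p q hq hpq ih => exact Step.quot p q hq ih

end Pool.Agent.H84.ML
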