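import Mathlib
import Pool.Agent.H84.ML.DefK
import Pool.Agent.H84.ML.Alt
import Pool.Agent.H84.L.A3_N478_EP_Cmp
import Pool.Agent.H84.L.A3_N600_NS_KerA
import Pool.Agent.H84.L.A3_N600_NS_Pa
import Pool.Agent.H84.L.A3_N600_NS_SemA
import Pool.Agent.H84.L.A3_N600_UK_Compl
import Pool.Agent.H84.L.A3_N600_UK_Good
import Pool.Agent.H84.L.A3_N600_UK_Main
import Pool.Agent.H84.L.A3_N70_AW_Rl
import Pool.Agent.H84.L.A3_N70_AW_Sa
import Pool.Agent.H84.L.A3_N70_EP_Cm
import Pool.Agent.H84.L.A3_N70_EP_Sg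
import Pool.Agent.H84.L.A3_N70_EP_Stm
import Pool.Agent.H84.L.A3_N70_EP_Stm3
import Pool.Agent.H84.L.A3_N70_EP_VocC
import Pool.Agent.H84.L.A3_N70_EP_VocCB
import Pool.Agent.H84.L.A3_N70_EQ_Fin
import Pool.Agent.H84.L.A3_N70_EQ_VocKB
import Pool.Agent.H84.L.A3_N891_EP_Aut
import Pool.Agent.H84.L.A3_N945_AW_Val
import Pool.Agent.H84.L.A3_N97_EP_Gd0
import Pool.Agent.H84.L.A7_T2H67_AG_PK
import Pool.Agent.H84.L.A7_T2H67_SA_Cl
import Pool.Agent.H84.L.A7_T2H67_SA_FinA
import Pool.Agent.H84.L.S8_H391R2_T4_Nod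
import Pool.Agent.H84.L.S8_H391R2_T4_Red
import Pool.Agent.H84.L.S8_H391R2_T4_Sem
import Pool.Agent.H84.L.S8_H391R2_WrGrp
import Pool.Agent.H84.L.S8_TH15_IGP_TwB
import Pool.Agent.H84.L.S8_TH444_TW_Cls
import Pool.Agent.H84.L.S8_TH444_TW_RS
import Pool.Agent.H84.L.S8_TH444_TW_RSK
import Pool.Agent.H84.L.S8_TH59_WX_UI
import Pool.Agent.H84.L.S8_W200_IG_Fam
import Pool.Agent.H84.L.S8_W200_IG_HF
import Pool.Agent.H84.L.S8_W200_IJ_SA
import Pool.Agent.H84.L.S8_Y60_DC_StmSp
import Pool.Agent.H84.L.S8_Y676_DSP_Simple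

/-!
# The class of kernels
-/

set_option autoImplicit false
set_option linter.unusedSectionVars false
set_option linter.unusedVariables false

namespace Pool.Agent.H84.ML

open Pool.Agent.H391R2 Pool.Agent.H391R2.T4
open Pool.Agent.TH444.TW (RSK infinite_ratFunc finite_of_ker regSol_of_regularOver)
open Pool.Agent.N600.UK (CL cl_of_center cl_iso Out cls)
open Pool.Agent.N70.EP (GoodKer0 St_gd0 rsk_of_good setA)
open Pool.Agent.N70.EQ (setS hyp)

/-- The sets of degrees. -/
def kdeg : Kernels where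
  sym G _ := setS G
  alt G _ := setA G

theorem good_compl (G : Type) [Group G] (hG : Centreless G)
    (hT : ∃ T : Subgroup (MulAut G), IsCompl T (MulAut.conj : G →* MulAut G).range) (n : ℕ)
    (hn : ((3 * Nat.card G + 2).factorial) ^ 3 ≤ n) : GoodKer0 (Wr G n) := by
  have h1 := hG.finite
  have h2 := hG.nontrivial
  intro K L X _ _ _ _ _ _ _ α hα hι
  exact Pool.Agent.TH59.WX.reg_kernel' hG.center hT n hn K L X α hα hι

theorem good_bound (G : Type) [Group G] (hG : Centreless G) (n : ℕ)
    (hn : ((3 * Nat.card (MulAut G) + 2).factorial) ^ 3 ≤ n) (hd : (InnerAut G).index ∣ n) :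
    GoodKer0 (Wr G n) := by
  have h1 := hG.finite
  have h2 := hG.nontrivial
  intro K L X _ _ _ _ _ _ _ α hα hι
  obtain ⟨ι⟩ := hι
  exact Pool.Agent.N600.NS.kernel_reg K L G (cl_of_center hG.center) n hn hd X α hα ι.symm

theorem kdeg_large : kdeg.Large where
  sym G _ hG E hE :=
    Pool.Agent.N70.EQ.setS_large G ⟨hG.finite, hG.nontrivial, hG.center⟩ E hE
  symCompl G _ hG hT n hn := good_compl G hG hT n hn
  symBound G _ hG n hn hd := good_bound G hG n hn hd
  alt G _ hG E hE hodd :=
    Pool.Agent.N70.EQ.setA_dens7 hyp G ⟨hG.finite, hG.nontrivial, hG.center⟩ E hE hodd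

/-- the centre of a group with alternating composition factors is trivial -/
theorem cl_altComp (T : Type) [Group T] (h : AltComp T) : CL T := by
  induction h with
  | one T h => exact fun z _ => Subsingleton.elim _ _
  | ext T M hM d h5 h6 e ih =>
    intro z hz
    have h1 : QuotientGroup.mk' M z = 1 := by
      have h2 : ∀ a : alternatingGroup (Fin d), e (QuotientGroup.mk' M z) * a =
          a * e (QuotientGroup.mk' M z) := by
        intro a
        obtain ⟨w, rfl⟩ := e.surjective a
        obtain ⟨g, rfl⟩ := QuotientGroup.mk'_surjective M w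
        rw [← map_mul, ← map_mul, ← map_mul, hz g, map_mul]
      have h3 : e (QuotientGroup.mk' M z) = 1 := by
        apply Subtype.ext
        refine Pool.Agent.T2H67.SA.perm_comm h5 fun b => ?_
        have h4 := congrArg (Subtype.val) (h2 b)
        have h5' : ((e (QuotientGroup.mk' M z) : alternatingGroup (Fin d)) :
            Equiv.Perm (Fin d)) * (b : Equiv.Perm (Fin d)) =
            (b : Equiv.Perm (Fin d)) * (e (QuotientGroup.mk' M z) : alternatingGroup (Fin d)) := h4
        rw [h5', mul_inv_cancel_right]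
      exact e.injective (by rw [h3, map_one])
    rw [QuotientGroup.mk'_apply, QuotientGroup.eq_one_iff] at h1
    have h8 : (⟨z, h1⟩ : M) = 1 := ih _ fun g => Subtype.ext (hz g)
    exact congrArg Subtype.val h8

theorem good_altComp (T : Type) [Group T] [Finite T] (h : AltComp T) : GoodKer0 T := by
  intro K L X _ _ _ _ _ _ _ α hα ⟨e⟩
  have hfin : Finite α.ker := Finite.of_equiv _ e.symm.toEquiv
  have hX : Finite X := finite_of_ker α
  have h1 : RSK K α := Pool.Agent.T2H67.AG.factor_rsk K α hα (compIn_factor K T h) e.symm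
  exact h1 K L (MulEquiv.refl _)

theorem kernel_main (T : Type) [Group T] (hT : KernelClass kdeg T) :
    Finite T ∧ CL T ∧ GoodKer0 T := by
  have gd : St_gd0 := Pool.Agent.N97.EP.t_gd0
  induction hT with
  | alternating G hG n hn =>
    have h2 := hG.finite
    have h3 := hG.nontrivial
    have h4 : Finite (Wr G n) := finite_wr G n
    refine ⟨Finite.of_injective Subtype.val Subtype.val_injective, ?_, hn⟩
    intro z hz
    exact Pool.Agent.N478.EP.triv_of_comm (cl_of_center hG.center) z
      (fun k g => hz (Pool.Agent.N891.EP.sg k g))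
  | symmetric G hG n hn =>
    have h2 := hG.finite
    have h3 := hG.nontrivial
    refine ⟨finite_wr G n,
      fun x hx => Pool.Agent.N600.UK.center_wr (cl_of_center hG.center) x hx, hn⟩
  | complete T hZ hI hR =>
    exact ⟨inferInstance, cl_of_center hZ, gd.complete T (cl_of_center hZ) hI
      (regSol_of_regularOver hR)⟩
  | altComp T h => exact ⟨inferInstance, cl_altComp T h, good_altComp T h⟩
  | power T h n hn ih =>
    obtain ⟨h1, h2, h3⟩ := ih
    exact ⟨finite_wr T n, fun x hx => Pool.Agent.N600.UK.center_wr h2 x hx, gd.wr T h2 h3 n hn⟩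
  | prod I T h ih =>
    have h1 : ∀ i, Finite (T i) := fun i => (ih i).1
    refine ⟨inferInstance, ?_, gd.pi I T (fun i => (ih i).2.1) (fun i => (ih i).2.2)⟩
    intro z hz
    classical
    funext i
    refine (ih i).2.1 _ fun g => ?_
    have h2 := congrFun (hz (Pi.mulSingle i g)) i
    rw [Pi.mul_apply, Pi.mul_apply, Pi.mulSingle_eq_same] at h2
    exact h2
  | factor A B h ih =>
    obtain ⟨h1, h2, h3⟩ := ih
    refine ⟨Finite.of_injective (fun a : A => (a, (1 : B))) (fun a b hab => congrArg Prod.fst hab),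
      ?_, gd.factor A B h3⟩
    intro z hz
    have h4 : ((z, 1) : A × B) = 1 := by
      apply h2
      rintro ⟨a, b⟩
      refine Prod.ext (hz a) ?_
      change 1 * b = b * 1
      rw [one_mul, mul_one]
    exact congrArg Prod.fst h4
  | extension T C h h' ih ih' =>
    obtain ⟨h1, h2, h3⟩ := ih
    obtain ⟨h4, h5, h6⟩ := ih'
    have hfin : Finite T := Finite.of_subgroup_quotient C
    refine ⟨hfin, ?_, gd.char T C h3 h6⟩
    intro z hz
    have h7 : (QuotientGroup.mk' C z) = 1 := by
      apply h5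
      intro g
      obtain ⟨g, rfl⟩ := QuotientGroup.mk'_surjective C g
      rw [← map_mul, hz g, map_mul]
    rw [QuotientGroup.mk'_apply, QuotientGroup.eq_one_iff] at h7
    have h8 : (⟨z, h7⟩ : C) = 1 := by
      apply h2
      intro g
      exact Subtype.ext (hz g)
    exact congrArg Subtype.val h8
  | iso T T' e h ih =>
    obtain ⟨h1, h2, h3⟩ := ih
    exact ⟨Finite.of_equiv _ e.toEquiv, cl_iso e h2, gd.iso T T' e h3⟩

/-- epimorphisms whose kernel is in the class -/
theorem kernel_rsk (K : Type) [Field K] [CharZero K] {Γ X : Type} [Group Γ] [Finite Γ] [Group X]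
    (p : X →* Γ) (hp : Function.Surjective p) (h : KernelClass kdeg p.ker) :
    Finite X ∧ RSK K p := by
  obtain ⟨h3, -, h5⟩ := kernel_main _ h
  exact ⟨finite_of_ker p, rsk_char0 K (rsk_of_good h5 p hp ⟨MulEquiv.refl _⟩)⟩

theorem kernelClass_sym (D : Kernels) (hD : D.Large) (G : Type) [Group G] (hG : Centreless G)
    (n : ℕ)
    (hn : ((∃ C : Subgroup (MulAut G), IsCompl C (InnerAut G)) ∧
        ((3 * Nat.card G + 2).factorial) ^ 3 ≤ n) ∨
      ((InnerAut G).index ∣ n ∧ ((3 * Nat.card (MulAut G) + 2).factorial) ^ 3 ≤ n)) :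
    KernelClass D (Wreath G n) := by
  rcases hn with ⟨h1, h2⟩ | ⟨h1, h2⟩
  · exact KernelClass.symmetric G hG n (hD.symCompl G hG h1 n h2)
  · exact KernelClass.symmetric G hG n (hD.symBound G hG n h2 h1)

end Pool.Agent.H84.ML
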