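import Mathlib
import Pool.Agent.H84.ML.DefT

/-!
# The two descriptions of the class
-/

set_option autoImplicit false
set_option linter.unusedVariables false
set_option linter.unusedSectionVars false

namespace Pool.Agent.H84.ML

theorem symPow_ext {B Γ : Type} [Group B] [Group Γ] {n : ℕ} {a b : Wreath B n × Γ}
    (h1 : a.1.left = b.1.left) (h2 : a.1.right = b.1.right) (h3 : a.2 = b.2) : a = b :=
  Prod.ext (SemidirectProduct.ext h1 h2) h3

/-- the homomorphism to the wreath product -/
def toWr {B X : Type} [Group B] [Group X] {n : ℕ} (f : X → Fin n → B)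
    (σ : X →* Equiv.Perm (Fin n)) (h : ∀ x y i, f (x * y) i = f x i * f y ((σ x)⁻¹ i)) :
    X →* Wreath B n :=
  MonoidHom.mk' (fun x => ⟨f x, σ x⟩) fun x y => by
    refine SemidirectProduct.ext (funext fun i => ?_) (map_mul σ x y)
    exact h x y i

theorem step_iso {K : Type} [Field K] {D : Degrees} {Γ X Y : Type} [Group Γ] [Group X] [Group Y]
    (p : X →* Γ) (q : Y →* Γ) (e : X ≃* Y) (he : ∀ x, q (e x) = p x) (h : Step K D q) :
    Step K D p := by
  refine Step.quot p e.symm.toMonoidHom e.symm.surjective ?_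
  have h1 : p.comp e.symm.toMonoidHom = q := by
    ext y
    obtain ⟨x, rfl⟩ := e.surjective y
    change p (e.symm (e x)) = q (e x)
    rw [e.symm_apply_apply, he]
  rwa [h1]

theorem step_symPow {K : Type} [Field K] {D : Degrees} {B Γ X : Type} [Group B] [Group Γ] [Group X]
    [Finite B] (α : B →* Γ) (hα : Function.Surjective α) (n : ℕ) (hn : n ∈ D.sym Γ B α)
    (p : X →* Γ) (hp : IsSymPow α n p) : Step K D p := by
  obtain ⟨f, σ, h1, h2, h3, h4⟩ := hp
  let φ : X →* SymPow α n :=
    ((toWr f σ h1).prod p).codRestrict (SymPow α n) fun x i => h3 x i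
  have hφ : Function.Bijective φ := by
    constructor
    · intro x y hxy
      have h5 := congrArg Subtype.val hxy
      have h6 : (toWr f σ h1) x = (toWr f σ h1) y := congrArg Prod.fst h5
      exact h2 x y (congrArg SemidirectProduct.left h6) (congrArg SemidirectProduct.right h6)
        (congrArg Prod.snd h5)
    · rintro ⟨⟨⟨g, τ⟩, ρ⟩, hz⟩
      obtain ⟨x, h5, h6, h7⟩ := h4 g τ ρ hz
      exact ⟨x, Subtype.ext (symPow_ext h5 h6 h7)⟩
  exact step_iso p (symPr α n) (MulEquiv.ofBijective φ hφ) (fun x => rfl)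
    (Step.symmetric α hα n hn)

theorem step_altPow {K : Type} [Field K] {D : Degrees} {B Γ X : Type} [Group B] [Group Γ] [Group X]
    [Finite B] (α : B →* Γ) (hα : Function.Surjective α) (χ : Γ →* ℤˣ) (n : ℕ)
    (hn : n ∈ D.alt Γ B α) (hχ : (∃ I : ℕ, Odd I ∧ IsSplittingIndex α I) ∨ χ = 1)
    (p : X →* Γ) (hp : IsAltPow α χ n p) : Step K D p := by
  obtain ⟨f, σ, h1, h2, h3, h8, h4⟩ := hp
  let φ : X →* AltPow α χ n :=
    ((toWr f σ h1).prod p).codRestrict (AltPow α χ n) fun x => ⟨fun i => h3 x i, h8 x⟩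
  have hφ : Function.Bijective φ := by
    constructor
    · intro x y hxy
      have h5 := congrArg Subtype.val hxy
      have h6 : (toWr f σ h1) x = (toWr f σ h1) y := congrArg Prod.fst h5
      exact h2 x y (congrArg SemidirectProduct.left h6) (congrArg SemidirectProduct.right h6)
        (congrArg Prod.snd h5)
    · rintro ⟨⟨⟨g, τ⟩, ρ⟩, hz, hz'⟩
      obtain ⟨x, h5, h6, h7⟩ := h4 g τ ρ hz hz'
      exact ⟨x, Subtype.ext (symPow_ext h5 h6 h7)⟩
  exact step_iso p (altPr α χ n) (MulEquiv.ofBijective φ hφ) (fun x => rfl)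
    (Step.alternating α hα χ n hn hχ)

theorem isPower_of {B N : Type} [Group B] [Group N] (θ : B → N → N) (θ' : B →* MulAut N)
    (hθ : ∀ b x, θ b x = θ' b x) {Γ X : Type} [Group Γ] [Group X] (p : X →* Γ)
    (h : IsSemiPower θ p) : IsPower θ' p := by
  obtain ⟨k, c, π, ι, s, h1, h2, h3, h4, h5⟩ := h
  refine ⟨k, toWr c π h1, ι, s, h2, ?_, h4, fun γ x => ?_⟩
  · ext x
    exact (h3 x).symm
  · rw [h5 γ x]
    simp only [hθ]
    rfl

/-- powers of isomorphic groups -/
theorem isSemiPower_iso {B N N' : Type} [Group B] [Group N] [Group N'] (θ : B → N → N)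
    (θ' : B → N' → N') (e : N ≃* N') (he : ∀ b x, e (θ b x) = θ' b (e x)) {Γ X : Type} [Group Γ]
    [Group X] (p : X →* Γ) (h : IsSemiPower θ p) : IsSemiPower θ' p := by
  obtain ⟨k, c, π, ι, s, h1, h2, h3, h4, h5⟩ := h
  let f : (Fin k → N') ≃* (Fin k → N) := MulEquiv.piCongrRight fun _ => e.symm
  refine ⟨k, c, π, ι.comp f.toMonoidHom, s, h1, h2.comp f.injective, fun x => ?_, h4,
    fun γ x => ?_⟩
  · rw [h3 x]
    constructor
    · rintro ⟨z, rfl⟩
      exact ⟨f.symm z, congrArg ι (f.apply_symm_apply z)⟩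
    · rintro ⟨z, rfl⟩
      exact ⟨f z, rfl⟩
  · have h6 := h5 γ (f x)
    refine h6.trans ?_
    congr 1
    change ι _ = ι _
    congr 1
    funext i
    change θ (c γ i) (e.symm (x ((π γ)⁻¹ i))) = e.symm (θ' (c γ i) (x ((π γ)⁻¹ i)))
    rw [MulEquiv.eq_symm_apply, he, MulEquiv.apply_symm_apply]

theorem step_normOne {K : Type} [Field K] {D : Degrees} {Γ X : Type} [Group Γ] [Group X]
    (p : X →* Γ) (G : Type) [Group G] [Finite G] (n : ℕ)
    (hn : ((3 * Nat.card G + 2).factorial) ^ 3 ≤ n) (N : Type) [Group N] (e : N →* Wreath G n)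
    (θ : MulAut G → N → N) (hθ : IsNormOne G n e θ) (hp : IsSemiPower θ p) : Step K D p := by
  obtain ⟨h1, h2, h3⟩ := hθ
  let φ : N →* NormOne G n := e.codRestrict (NormOne G n) fun x => (h2 (e x)).1 ⟨x, rfl⟩
  have hφ : Function.Bijective φ := by
    constructor
    · intro x y hxy
      exact h1 (congrArg Subtype.val hxy)
    · rintro ⟨y, hy⟩
      obtain ⟨x, hx⟩ := (h2 y).2 hy
      exact ⟨x, Subtype.ext hx⟩
  refine Step.normOne p G n hn (isPower_of (fun a x => normOneAct G n a x) (normOneAct G n)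
    (fun _ _ => rfl) p (isSemiPower_iso θ _ (MulEquiv.ofBijective φ hφ) (fun a x => ?_) p hp))
  apply Subtype.ext
  exact SemidirectProduct.ext (h3 a x).1 (h3 a x).2

theorem Tower.step {K : Type} [Field K] {D : Degrees} {Γ X : Type} [Group Γ] [Group X]
    {p : X →* Γ} (h : Tower K D p) : Step K D p := by
  induction h with
  | peelable p s hs hfin h => exact Step.peelable p s hs hfin h
  | central p s hs hfin h => exact Step.central p s hs hfin h
  | inner p A hA hp =>
    exact Step.inner p A hA (isPower_of _ (MulAut.conj : A →* MulAut A) (fun _ _ => rfl) p hp)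
  | wreath p G n hn hp =>
    exact Step.wreath p G n hn (isPower_of _ (wreathAct G n) (fun _ _ => rfl) p hp)
  | normOne p G n hn N e θ hθ hp => exact step_normOne p G n hn N e θ hθ hp
  | kernel p hp I G hZ hC n hn hN => exact Step.kernel p hp I G hZ hC n hn hN
  | symmetric α hα n hn p hp => exact step_symPow α hα n hn p hp
  | alternating α hα χ n hn hχ p hp => exact step_altPow α hα χ n hn hχ p hp
  | comp p q hp hq ihp ihq => exact Step.comp p q ihp ihq
  | quot p q hq hpq ih => exact Step.quot p q hq ih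
  | pullback p p' hp h ih => exact Step.pullback p p' hp ih
  | induced p hp Δ q hq h ih => exact Step.induced p hp Δ q hq ih

end Pool.Agent.H84.ML
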